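import Pool.Agent.NH36.Sd.Defs2

/-!
# Block triangular matrices with coprime semisimple diagonal blocks are semisimple
-/

set_option autoImplicit false

open Matrix Polynomial Pool.Agent.NH36.Fs

namespace Pool.Agent.NH36.Sd

namespace BlkAux

variable {F : Type} [Field F] {r : ℕ} {m : Fin r → ℕ}

/-- The block triangular matrices. -/
abbrev S (F : Type) [Field F] {r : ℕ} (m : Fin r → ℕ) :
    Subalgebra F (Matrix (Σ j, Fin (m j)) (Σ j, Fin (m j)) F) :=
  blockTriangularSubalgebra F F (Sigma.fst : (Σ j, Fin (m j)) → Fin r)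

lemma blk_mul {A B : Matrix (Σ j, Fin (m j)) (Σ j, Fin (m j)) F}
    (hA : A.BlockTriangular Sigma.fst) (hB : B.BlockTriangular Sigma.fst) (j : Fin r) :
    blk (A * B) j = blk A j * blk B j := by
  ext a b
  simp only [blk, Matrix.of_apply, Matrix.mul_apply]
  rw [Fintype.sum_sigma, Finset.sum_eq_single j]
  · intro i _ hij
    refine Finset.sum_eq_zero fun c _ => ?_
    rcases lt_or_gt_of_ne hij with h | h
    · rw [hA (i := ⟨j, a⟩) (j := ⟨i, c⟩) h, zero_mul]
    · rw [hB (i := ⟨i, c⟩) (j := ⟨j, b⟩) h, mul_zero]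
  · intro h
    exact absurd (Finset.mem_univ _) h

lemma blk_one (j : Fin r) : blk (1 : Matrix (Σ j, Fin (m j)) (Σ j, Fin (m j)) F) j = 1 := by
  ext a b
  simp only [blk, Matrix.of_apply, Matrix.one_apply]
  by_cases h : a = b
  · subst h
    simp
  · rw [if_neg h, if_neg]
    intro h'
    apply h
    simpa using h'

/-- The diagonal block as a homomorphism of algebras. -/
def blkHom (F : Type) [Field F] {r : ℕ} (m : Fin r → ℕ) (j : Fin r) :
    S F m →ₐ[F] Matrix (Fin (m j)) (Fin (m j)) F where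
  toFun A := blk A.1 j
  map_one' := blk_one j
  map_mul' A B := blk_mul A.2 B.2 j
  map_zero' := by
    ext a b
    simp [blk]
  map_add' A B := by
    ext a b
    simp [blk]
  commutes' c := by
    have h1 : ((algebraMap F (S F m) c : S F m) : Matrix (Σ j, Fin (m j)) (Σ j, Fin (m j)) F) =
        c • 1 := by
      rw [← Algebra.algebraMap_eq_smul_one]
      rfl
    rw [h1, Algebra.algebraMap_eq_smul_one, ← blk_one (m := m) (F := F) j]
    ext a b
    simp [blk]

lemma bt_aeval {A : Matrix (Σ j, Fin (m j)) (Σ j, Fin (m j)) F}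
    (hA : A.BlockTriangular Sigma.fst) (q : F[X]) : (aeval A q).BlockTriangular Sigma.fst := by
  have h1 : aeval A q = (aeval (⟨A, hA⟩ : S F m) q : S F m) := by
    have := aeval_algHom_apply (S F m).val (⟨A, hA⟩ : S F m) q
    exact this
  rw [h1]
  exact (aeval (⟨A, hA⟩ : S F m) q).2

lemma blk_aeval {A : Matrix (Σ j, Fin (m j)) (Σ j, Fin (m j)) F}
    (hA : A.BlockTriangular Sigma.fst) (q : F[X]) (j : Fin r) :
    blk (aeval A q) j = aeval (blk A j) q := by
  have h1 : aeval A q = (aeval (⟨A, hA⟩ : S F m) q : S F m) := by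
    have := aeval_algHom_apply (S F m).val (⟨A, hA⟩ : S F m) q
    exact this
  have h2 := aeval_algHom_apply (blkHom F m j) (⟨A, hA⟩ : S F m) q
  rw [h1]
  exact h2.symm

/-- The vector `v` is supported on the indices with first component less than `k`. -/
def Sup (k : ℕ) (v : (Σ j, Fin (m j)) → F) : Prop := ∀ i, k ≤ (i.1 : ℕ) → v i = 0

lemma sup_step {M : Matrix (Σ j, Fin (m j)) (Σ j, Fin (m j)) F}
    (hM : M.BlockTriangular Sigma.fst) {k : ℕ} (hk : k < r) (h0 : blk M ⟨k, hk⟩ = 0)
    {v : (Σ j, Fin (m j)) → F} (hv : Sup (k + 1) v) : Sup k (M *ᵥ v) := by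
  intro i hi
  rw [Matrix.mulVec, dotProduct]
  refine Finset.sum_eq_zero fun j _ => ?_
  rcases lt_or_ge (j.1 : ℕ) (k + 1) with h | h
  · rcases lt_or_ge j.1 i.1 with h' | h'
    · rw [hM h', zero_mul]
    · have h1 : (i.1 : ℕ) ≤ j.1 := h'
      have h2 : i.1 = ⟨k, hk⟩ := Fin.ext (by change (i.1 : ℕ) = k; omega)
      have h3 : j.1 = ⟨k, hk⟩ := Fin.ext (by change (j.1 : ℕ) = k; omega)
      obtain ⟨i1, i2⟩ := i
      obtain ⟨j1, j2⟩ := j
      simp only at h2 h3
      subst h2
      subst h3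
      have h4 := congrFun (congrFun h0 i2) j2
      simp only [blk, Matrix.of_apply, Matrix.zero_apply] at h4
      rw [h4, zero_mul]
  · rw [hv j h, mul_zero]

/-- The minimal polynomial of the `j`-th block. -/
noncomputable def qq (A : Matrix (Σ j, Fin (m j)) (Σ j, Fin (m j)) F) (j : ℕ) : F[X] :=
  if h : j < r then minpoly F (blk A ⟨j, h⟩) else 1

lemma kill {A : Matrix (Σ j, Fin (m j)) (Σ j, Fin (m j)) F}
    (hA : A.BlockTriangular Sigma.fst) (k : ℕ) (hk : k ≤ r) :
    ∀ v : (Σ j, Fin (m j)) → F, Sup k v → aeval A (∏ j ∈ Finset.range k, qq A j) *ᵥ v = 0 := by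
  induction k with
  | zero =>
    intro v hv
    have h1 : v = 0 := by
      funext i
      exact hv i (Nat.zero_le _)
    rw [h1, Matrix.mulVec_zero]
  | succ k ih =>
    intro v hv
    rw [Finset.prod_range_succ, map_mul, ← Matrix.mulVec_mulVec]
    refine ih (by omega) _ ?_
    refine sup_step (bt_aeval hA _) (by omega) ?_ hv
    rw [blk_aeval hA, qq, dif_pos (by omega), minpoly.aeval]

lemma sqf [CharZero F] {A : Matrix (Σ j, Fin (m j)) (Σ j, Fin (m j)) F}
    (hs : ∀ j, SS (blk A j))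
    (hc : ∀ i j, i ≠ j → IsCoprime (blk A i).charpoly (blk A j).charpoly) (k : ℕ) (hk : k ≤ r) :
    Squarefree (∏ j ∈ Finset.range k, qq A j) := by
  refine Finset.squarefree_prod_of_pairwise_isCoprime ?_ ?_
  · intro i hi j hj hij
    have hi' : i < r := lt_of_lt_of_le (Finset.mem_range.1 hi) hk
    have hj' : j < r := lt_of_lt_of_le (Finset.mem_range.1 hj) hk
    change IsRelPrime (qq A i) (qq A j)
    rw [qq, qq, dif_pos hi', dif_pos hj']
    refine IsCoprime.isRelPrime ?_
    refine (hc ⟨i, hi'⟩ ⟨j, hj'⟩ ?_).mono (Matrix.minpoly_dvd_charpoly _)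
      (Matrix.minpoly_dvd_charpoly _)
    intro h
    exact hij (Fin.mk.inj_iff.1 h)
  · intro i hi
    have hi' : i < r := lt_of_lt_of_le (Finset.mem_range.1 hi) hk
    rw [qq, dif_pos hi']
    exact (ss_iff _).1 (hs _)

end BlkAux

open BlkAux in
/-- **Block triangular matrices with coprime semisimple diagonal blocks are semisimple.** -/
theorem t_blk : S_blk := by
  intro F _ _ r m A hA hs hc
  have h1 : aeval A (∏ j ∈ Finset.range r, qq A j) = 0 := by
    apply Matrix.toLin'.injective
    refine LinearMap.ext fun v => ?_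
    rw [Matrix.toLin'_apply, map_zero, LinearMap.zero_apply]
    exact kill hA r le_rfl v fun i hi => absurd i.1.2 (by omega)
  refine Module.End.isSemisimple_of_squarefree_aeval_eq_zero (sqf hs hc r le_rfl) ?_
  have h2 := aeval_algHom_apply (Matrix.toLinAlgEquiv' (R := F) (n := Σ j, Fin (m j))).toAlgHom A
    (∏ j ∈ Finset.range r, qq A j)
  rw [h1, map_zero] at h2
  exact h2

end Pool.Agent.NH36.Sd
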