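import Pool.Agent.NH36.Sd.Defs

/-!
# The conjugates of the tangent vector span a Lie algebra
-/

set_option autoImplicit false

open Matrix Polynomial Pool.Agent.NH36.Fs

namespace Pool.Agent.NH36.Sd

namespace Bra

variable {F : Type} [Field F] {n : ℕ}

/-- a linear functional extended to matrices over an algebra -/
def lS (S : Type) [CommRing S] [Algebra F S] (l : Matrix (Fin n) (Fin n) F →ₗ[F] F)
    (M : Matrix (Fin n) (Fin n) S) : S :=
  ∑ i, ∑ j, algebraMap F S (l (Matrix.single i j 1)) * M i j

theorem lS_F (l : Matrix (Fin n) (Fin n) F →ₗ[F] F) (M : Matrix (Fin n) (Fin n) F) :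
    lS F l M = l M := by
  conv_rhs => rw [matrix_eq_sum_single M]
  simp only [lS, map_sum, Algebra.algebraMap_self, RingHom.id_apply]
  refine Finset.sum_congr rfl fun i _ => Finset.sum_congr rfl fun j _ => ?_
  rw [show Matrix.single i j (M i j) = M i j • Matrix.single i j (1 : F) by
    rw [Matrix.smul_single, smul_eq_mul, mul_one], map_smul, smul_eq_mul, mul_comm]

theorem lS_smul (S : Type) [CommRing S] [Algebra F S] (l : Matrix (Fin n) (Fin n) F →ₗ[F] F)
    (a : S) (M : Matrix (Fin n) (Fin n) S) : lS S l (a • M) = a * lS S l M := by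
  simp only [lS, Finset.mul_sum, Matrix.smul_apply, smul_eq_mul]
  refine Finset.sum_congr rfl fun i _ => Finset.sum_congr rfl fun j _ => ?_
  ring

/-- the generic matrix -/
noncomputable def gB (F : Type) [Field F] (n : ℕ) :
    Matrix (Fin n) (Fin n) (MvPolynomial (Fin n × Fin n) F) :=
  Matrix.of fun i j => MvPolynomial.X (i, j)

/-- the polynomial -/
noncomputable def P (l : Matrix (Fin n) (Fin n) F →ₗ[F] F) (y : Matrix (Fin n) (Fin n) F) :
    MvPolynomial (Fin n × Fin n) F :=
  lS _ l (gB F n * y.map (algebraMap F _) * adjugate (gB F n))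

theorem aeval_P (S : Type) [CommRing S] [Algebra F S] (l : Matrix (Fin n) (Fin n) F →ₗ[F] F)
    (y : Matrix (Fin n) (Fin n) F) (M : Matrix (Fin n) (Fin n) S) :
    MvPolynomial.aeval (fun p : Fin n × Fin n => M p.1 p.2) (P l y) =
      lS S l (M * y.map (algebraMap F S) * adjugate M) := by
  set φ : MvPolynomial (Fin n × Fin n) F →ₐ[F] S :=
    MvPolynomial.aeval (fun p : Fin n × Fin n => M p.1 p.2) with hφ
  have h1 : φ.mapMatrix (gB F n) = M := by
    ext i j
    simp [gB, hφ]
  have h2 : φ.mapMatrix (y.map (algebraMap F (MvPolynomial (Fin n × Fin n) F))) =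
      y.map (algebraMap F S) := by
    ext i j
    simp only [AlgHom.mapMatrix_apply, Matrix.map_apply]
    exact φ.commutes _
  have h3 : φ.mapMatrix (gB F n * y.map (algebraMap F _) * adjugate (gB F n)) =
      M * y.map (algebraMap F S) * adjugate M := by
    rw [map_mul, map_mul, AlgHom.map_adjugate, h1, h2]
  unfold P lS
  rw [map_sum]
  refine Finset.sum_congr rfl fun i _ => ?_
  rw [map_sum]
  refine Finset.sum_congr rfl fun j _ => ?_
  rw [map_mul]
  congr 1
  · exact φ.commutes _
  · exact congrFun (congrFun h3 i) j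

theorem dual_mul (B C B' C' : Matrix (Fin n) (Fin n) F) :
    dual B C * dual B' C' = dual (B * B') (B * C' + C * B') := by
  ext i j
  · simp [dual, Matrix.mul_apply, TrivSqZeroExt.fst_sum]
  · simp [dual, Matrix.mul_apply, TrivSqZeroExt.snd_sum, Finset.sum_add_distrib, mul_comm]

theorem dual_one : dual (1 : Matrix (Fin n) (Fin n) F) 0 = 1 := by
  ext i j
  · by_cases h : i = j
    · subst h; simp [dual]
    · simp [dual, Matrix.one_apply_ne h]
  · by_cases h : i = j
    · subst h; simp [dual]
    · simp [dual, Matrix.one_apply_ne h]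

theorem conj_mem (G : Subgroup (GL (Fin n) F)) (N : Matrix (Fin n) (Fin n) F)
    {b : GL (Fin n) F} (hb : b ∈ G) {y : Matrix (Fin n) (Fin n) F}
    (hy : y ∈ conjSpan (G : Set (GL (Fin n) F)) N) :
    b.val * y * (b⁻¹).val ∈ conjSpan (G : Set (GL (Fin n) F)) N := by
  refine Submodule.span_induction ?_ ?_ ?_ ?_ hy
  · rintro _ ⟨g, hg, rfl⟩
    refine Submodule.subset_span ⟨b * g, G.mul_mem hb hg, ?_⟩
    simp only [_root_.mul_inv_rev, Units.val_mul, mul_assoc]
  · rw [mul_zero, zero_mul]
    exact Submodule.zero_mem _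
  · intro x z _ _ hx hz
    rw [mul_add, add_mul]
    exact Submodule.add_mem _ hx hz
  · intro a x _ hx
    rw [mul_smul_comm, smul_mul_assoc]
    exact Submodule.smul_mem _ _ hx

end Bra

/-- **SD-6.** -/
theorem t_bra : S_bra := by
  intro F _ _ n G A N hA _ hV x hx y hy
  refine Submodule.span_induction ?_ ?_ ?_ ?_ hx
  · rintro _ ⟨g, hg, rfl⟩
    set x : Matrix (Fin n) (Fin n) F := g.val * N * (g⁻¹).val with hxd
    change x * y - y * x ∈ _
    by_contra hcon
    obtain ⟨l, hl1, hl2⟩ := Submodule.exists_le_ker_of_notMem hcon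
    have hl3 : ∀ w ∈ conjSpan (G : Set (GL (Fin n) F)) N, l w = 0 := fun w hw =>
      LinearMap.mem_ker.1 (hl2 hw)
    -- vanishing at the group elements
    have h1 : ∀ k : ℕ, 1 ∣ k → Van (Bra.P l y) (g.val * A.val ^ k * (g⁻¹).val) := by
      intro k _
      set b : GL (Fin n) F := g * A ^ k * g⁻¹ with hb
      have hbG : b ∈ G := G.mul_mem (G.mul_mem hg (G.pow_mem hA k)) (G.inv_mem hg)
      have hbv : g.val * A.val ^ k * (g⁻¹).val = b.val := by
        rw [hb, Units.val_mul, Units.val_mul, Units.val_pow_eq_pow_val]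
      rw [hbv]
      unfold Van
      have h2 := Bra.aeval_P F l y b.val
      rw [Bra.lS_F] at h2
      have h3 : adjugate b.val = b.val.det • (b⁻¹).val := by
        have h4 : b.val * (b⁻¹).val = 1 := by rw [← Units.val_mul, mul_inv_cancel, Units.val_one]
        calc adjugate b.val = adjugate b.val * (b.val * (b⁻¹).val) := by rw [h4, mul_one]
          _ = _ := by rw [← mul_assoc, adjugate_mul, smul_mul_assoc, one_mul]
      have h5 : y.map (algebraMap F F) = y := by
        ext i j
        rfl
      rw [h3, h5, mul_smul_comm, map_smul, hl3 _ (Bra.conj_mem G N hbG hy), smul_zero] at h2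
      exact h2
    have h6 := hV g.val (g⁻¹).val 1 one_pos (Bra.P l y) h1
    have hgg : g.val * (g⁻¹).val = 1 := by rw [← Units.val_mul, mul_inv_cancel, Units.val_one]
    rw [hgg, ← hxd] at h6
    unfold VanD at h6
    rw [Bra.aeval_P] at h6
    have h7 : dual 1 x * dual 1 (-x) = 1 := by
      rw [Bra.dual_mul, one_mul, one_mul, mul_one, neg_add_cancel, Bra.dual_one]
    have h8 : adjugate (dual 1 x) = (dual 1 x).det • dual 1 (-x) := by
      calc adjugate (dual 1 x) = adjugate (dual 1 x) * (dual 1 x * dual 1 (-x)) := by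
            rw [h7, mul_one]
        _ = _ := by rw [← mul_assoc, adjugate_mul, smul_mul_assoc, one_mul]
    have h9 : y.map (algebraMap F (DualNumber F)) = dual y 0 := by
      ext i j
      · simp [dual, TrivSqZeroExt.algebraMap_eq_inl]
      · simp [dual, TrivSqZeroExt.algebraMap_eq_inl]
    rw [h8, h9, mul_smul_comm, Bra.dual_mul, Bra.dual_mul, Bra.lS_smul] at h6
    have h10 : IsUnit (dual 1 x).det := by
      have h11 := congrArg Matrix.det h7
      rw [Matrix.det_mul, Matrix.det_one] at h11
      exact IsUnit.of_mul_eq_one _ h11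
    have h12 := (h10.mul_right_eq_zero).1 h6
    have h13 := congrArg TrivSqZeroExt.snd h12
    have h14 : TrivSqZeroExt.snd (Bra.lS (DualNumber F) l
        (dual (1 * y * 1) (1 * y * -x + (1 * 0 + x * y) * 1))) = l (x * y - y * x) := by
      rw [← Bra.lS_F l (x * y - y * x)]
      simp only [Bra.lS, TrivSqZeroExt.snd_sum]
      refine Finset.sum_congr rfl fun i _ => Finset.sum_congr rfl fun j _ => ?_
      simp only [TrivSqZeroExt.algebraMap_eq_inl, dual, Matrix.of_apply]
      simp [mul_comm]
      ring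
    rw [h14] at h13
    exact hl1 h13
  · rw [zero_mul, mul_zero, sub_zero]
    exact Submodule.zero_mem _
  · intro a b _ _ ha hb
    rw [show (a + b) * y - y * (a + b) = (a * y - y * a) + (b * y - y * b) by
      rw [add_mul, mul_add]; abel]
    exact Submodule.add_mem _ ha hb
  · intro a b _ hb
    rw [smul_mul_assoc, mul_smul_comm, ← smul_sub]
    exact Submodule.smul_mem _ _ hb

end Pool.Agent.NH36.Sd
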