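import Pool.Agent.NH36.Sd.Defs

/-!
# Generic elements of a semisimple representation are semisimple: assembly
-/

set_option autoImplicit false

open Matrix Polynomial Pool.Agent.NH36.Fs

namespace Pool.Agent.NH36.Sd

namespace Core68

/-- the determinant of the Gram matrix of the polynomials in a matrix -/
noncomputable def gramD {F : Type} [Field F] {n r : ℕ} {R : Type} [CommRing R] [Algebra F R]
    (B : Matrix (Fin n) (Fin n) R) (f g : Fin (r + 1) → F[X]) : R :=
  (Matrix.of fun i j => (aeval B (f i * g j)).trace).det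

theorem gramD_map {F : Type} [Field F] {n r : ℕ} {R S : Type} [CommRing R] [Algebra F R]
    [CommRing S] [Algebra F S] (φ : R →ₐ[F] S) (B : Matrix (Fin n) (Fin n) R)
    (f g : Fin (r + 1) → F[X]) : φ (gramD B f g) = gramD (B.map φ) f g := by
  rw [gramD, gramD, AlgHom.map_det]
  congr 1
  ext i j
  simp only [AlgHom.mapMatrix_apply, Matrix.map_apply, Matrix.of_apply]
  have h1 : aeval (B.map φ) (f i * g j) = (aeval B (f i * g j)).map φ := by
    have h2 := Polynomial.aeval_algHom_apply (φ.mapMatrix (m := Fin n)) B (f i * g j)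
    exact h2
  rw [h1]
  exact AddMonoidHom.map_trace (φ : R →+* S).toAddMonoidHom _

/-- the universal Gram determinant -/
noncomputable def PP {F : Type} [Field F] {n r : ℕ} (f g : Fin (r + 1) → F[X]) :
    MvPolynomial (Fin n × Fin n) F :=
  gramD (Matrix.mvPolynomialX (Fin n) (Fin n) F) f g

theorem PP_aeval {F : Type} [Field F] {n r : ℕ} {R : Type} [CommRing R] [Algebra F R]
    (B : Matrix (Fin n) (Fin n) R) (f g : Fin (r + 1) → F[X]) :
    MvPolynomial.aeval (fun p : Fin n × Fin n => B p.1 p.2) (PP (n := n) f g) = gramD B f g := by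
  rw [PP, gramD_map]
  congr 1
  ext i j
  rw [Matrix.map_apply, Matrix.mvPolynomialX_apply, MvPolynomial.aeval_X]

theorem mem_span_of_adjoin {F : Type} [Field F] {n : ℕ} (G : Subgroup (GL (Fin n) F))
    (A : GL (Fin n) F) (hA : A ∈ G) (N : Matrix (Fin n) (Fin n) F)
    (hN : N ∈ Algebra.adjoin F {A.val}) :
    N ∈ Submodule.span F (Units.val '' (G : Set (GL (Fin n) F))) := by
  rw [Algebra.adjoin_singleton_eq_range_aeval] at hN
  obtain ⟨q, rfl⟩ := hN
  show aeval A.val q ∈ _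
  rw [Polynomial.aeval_eq_sum_range]
  refine Submodule.sum_mem _ fun i _ => Submodule.smul_mem _ _ (Submodule.subset_span ?_)
  exact ⟨A ^ i, G.pow_mem hA i, by rw [Units.val_pow_eq_pow_val]⟩

end Core68

open Core68

theorem t_core (hz : S_zar) (hg : S_gram) (hv : S_var) (hl : S_lie) (hb : S_bra) : S_core := by
  intro Γ F _ _ _ n ρ hss U hUn hUf γ hmax
  have hdet : IsUnit (ρ γ).val.det := (Matrix.isUnit_iff_isUnit_det _).1 (ρ γ).isUnit
  obtain ⟨N, hadj, hnil, hN0, hprop⟩ := hz F n (ρ γ).val hdet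
  apply hN0
  have hmem : ρ γ ∈ ρ.range := ⟨γ, rfl⟩
  refine hl F n ρ.range N ?_ hnil (mem_span_of_adjoin _ _ hmem N hadj) ?_ ?_
  · have e : Units.val '' (ρ.range : Set (GL (Fin n) F)) = im ρ := by
      ext B
      constructor
      · rintro ⟨_, ⟨σ, rfl⟩, rfl⟩
        exact ⟨σ, rfl⟩
      · rintro ⟨σ, rfl⟩
        exact ⟨ρ σ, ⟨σ, rfl⟩, rfl⟩
    rw [e]
    exact hss
  · rintro _ ⟨τ, rfl⟩
    refine hv F n (numEig (ρ γ).val) (ρ γ).val ((ρ τ).val * N * ((ρ τ)⁻¹).val) hdet rfl ?_ N hadj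
      hnil
    intro f g0
    obtain ⟨m, hm0, _, hm⟩ := Subgroup.exists_pow_mem_of_index_ne_zero hUf.index_ne_zero γ
    have hVan : ∀ k : ℕ, m ∣ k → Van (PP (n := n) f g0)
        ((ρ γ).val * (ρ τ).val * (ρ γ).val ^ k * ((ρ τ)⁻¹).val) := by
      rintro k ⟨l, rfl⟩
      have h1 : τ * γ ^ (m * l) * τ⁻¹ ∈ U := by
        apply hUn.conj_mem
        rw [pow_mul]
        exact U.pow_mem hm l
      have h2 := hmax _ h1
      have h3 : (ρ (γ * (τ * γ ^ (m * l) * τ⁻¹))).val =
          (ρ γ).val * (ρ τ).val * (ρ γ).val ^ (m * l) * ((ρ τ)⁻¹).val := by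
        simp only [map_mul, map_pow, map_inv, Units.val_mul, Units.val_pow_eq_pow_val,
          Matrix.mul_assoc]
      rw [h3] at h2
      have h4 := hg F n (numEig (ρ γ).val) _ h2 f g0
      have h5 := PP_aeval ((ρ γ).val * (ρ τ).val * (ρ γ).val ^ (m * l) * ((ρ τ)⁻¹).val) f g0
      rw [Van]
      have h6 : MvPolynomial.eval (fun p : Fin n × Fin n =>
          ((ρ γ).val * (ρ τ).val * (ρ γ).val ^ (m * l) * ((ρ τ)⁻¹).val) p.1 p.2)
          (PP (n := n) f g0) = gramD
          ((ρ γ).val * (ρ τ).val * (ρ γ).val ^ (m * l) * ((ρ τ)⁻¹).val) f g0 := by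
        rw [← h5, ← MvPolynomial.coe_aeval_eq_eval]
        rfl
      rw [h6]
      exact h4
    have h7 := hprop ((ρ γ).val * (ρ τ).val) ((ρ τ)⁻¹).val m hm0 (PP (n := n) f g0) hVan
    have e1 : (ρ γ).val * (ρ τ).val * ((ρ τ)⁻¹).val = (ρ γ).val := by
      rw [Matrix.mul_assoc, ← Units.val_mul, mul_inv_cancel, Units.val_one, Matrix.mul_one]
    have e2 : (ρ γ).val * (ρ τ).val * N * ((ρ τ)⁻¹).val =
        (ρ γ).val * ((ρ τ).val * N * ((ρ τ)⁻¹).val) := by
      simp only [Matrix.mul_assoc]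
    rw [e1, e2, VanD, PP_aeval] at h7
    exact h7
  · exact hb F n ρ.range (ρ γ) N hmem hnil hprop

end Pool.Agent.NH36.Sd
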