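import Pool.Agent.NH36.Fs.Eig

/-!
# Generic elements of a semisimple representation are semisimple: statements

`Γ` is a group, `F` a field of characteristic zero and `ρ : Γ → GL_n(F)` a semisimple
representation. Then in each coset of a normal subgroup of finite index the elements with the
maximal number of distinct eigenvalues are semisimple (`S_core`).
-/

set_option autoImplicit false

open Matrix Polynomial Pool.Agent.NH36.Fs

namespace Pool.Agent.NH36.Sd

/-- The homomorphism from the algebra of exponential polynomials which maps `X` to `k` and the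
exponential of `μ` to `μ ^ k`. -/
noncomputable def evk (E : Type) [Field E] (k : ℕ) : MonoidAlgebra E[X] Eˣ →+* E :=
  MonoidAlgebra.liftNCRingHom (evalRingHom (k : E))
    ((Units.coeHom E).comp (powMonoidHom k)) fun _ _ => Commute.all _ _

/-- The homomorphism from the algebra of exponential polynomials to the polynomials which maps all
exponentials to one. -/
noncomputable def red (E : Type) [Field E] : MonoidAlgebra E[X] Eˣ →+* E[X] :=
  MonoidAlgebra.liftNCRingHom (RingHom.id E[X]) (1 : Eˣ →* E[X]) fun _ _ => Commute.all _ _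

/-- Exponential polynomials which vanish at the multiples of `m` have polynomial part zero. -/
def S_exp : Prop :=
  ∀ (E : Type) [Field E] [CharZero E] (m : ℕ), 0 < m → ∀ r : MonoidAlgebra E[X] Eˣ,
    (∀ k : ℕ, m ∣ k → evk E k r = 0) → red E r = 0

/-- The matrix `B + ε C` over the dual numbers. -/
def dual {F : Type} [Field F] {n : ℕ} (B C : Matrix (Fin n) (Fin n) F) :
    Matrix (Fin n) (Fin n) (DualNumber F) :=
  Matrix.of fun i j => TrivSqZeroExt.inl (B i j) + TrivSqZeroExt.inr (C i j)

/-- The polynomial `P` in the matrix entries vanishes at `B + ε C`. -/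
def VanD {F : Type} [Field F] {n : ℕ} (P : MvPolynomial (Fin n × Fin n) F)
    (B C : Matrix (Fin n) (Fin n) F) : Prop :=
  MvPolynomial.aeval (fun p : Fin n × Fin n => dual B C p.1 p.2) P = 0

/-- The polynomial `P` in the matrix entries vanishes at `B`. -/
def Van {F : Type} [Field F] {n : ℕ} (P : MvPolynomial (Fin n × Fin n) F)
    (B : Matrix (Fin n) (Fin n) F) : Prop :=
  MvPolynomial.eval (fun p : Fin n × Fin n => B p.1 p.2) P = 0

/-- The Zariski closure of the powers of an invertible matrix `A` contains its unipotent part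
to first order: `N` is the logarithm of the unipotent part. -/
def S_zar : Prop :=
  ∀ (F : Type) [Field F] [CharZero F] (n : ℕ) (A : Matrix (Fin n) (Fin n) F), IsUnit A.det →
    ∃ N ∈ Algebra.adjoin F {A}, IsNilpotent N ∧ (N = 0 → SS A) ∧
      ∀ (X Y : Matrix (Fin n) (Fin n) F) (m : ℕ), 0 < m →
        ∀ P : MvPolynomial (Fin n × Fin n) F, (∀ k : ℕ, m ∣ k → Van P (X * A ^ k * Y)) →
          VanD P (X * Y) (X * N * Y)

/-- If `B` has at most `r` distinct eigenvalues, then the bilinear form `Tr ((f g) (B))` on the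
polynomials has rank at most `r`. -/
def S_gram : Prop :=
  ∀ (F : Type) [Field F] [CharZero F] (n r : ℕ) (B : Matrix (Fin n) (Fin n) F), numEig B ≤ r →
    ∀ f g : Fin (r + 1) → F[X],
      (Matrix.of fun i j => (aeval B (f i * g j)).trace).det = 0

/-- First variation of the number of eigenvalues. -/
def S_var : Prop :=
  ∀ (F : Type) [Field F] [CharZero F] (n r : ℕ) (A X : Matrix (Fin n) (Fin n) F),
    IsUnit A.det → numEig A = r →
    (∀ f g : Fin (r + 1) → F[X],
      (Matrix.of fun i j => (aeval (dual A (A * X)) (f i * g j)).trace).det = 0) →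
    ∀ M ∈ Algebra.adjoin F {A}, IsNilpotent M → (M * X).trace = 0

/-- The vectors of `W` are mapped to `W` by the elements of the set `G` of matrices. -/
def StabBy {F : Type} [Field F] {n : ℕ} (G : Set (Matrix (Fin n) (Fin n) F))
    (W : Submodule F (Fin n → F)) : Prop :=
  ∀ g ∈ G, ∀ w ∈ W, g *ᵥ w ∈ W

/-- The set `G` of matrices acts semisimply. -/
def SSBy {F : Type} [Field F] {n : ℕ} (G : Set (Matrix (Fin n) (Fin n) F)) : Prop :=
  ∀ W : Submodule F (Fin n → F), StabBy G W →
    ∃ W' : Submodule F (Fin n → F), StabBy G W' ∧ IsCompl W W'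

/-- The span of the conjugates of `N`. -/
def conjSpan {F : Type} [Field F] {n : ℕ} (G : Set (GL (Fin n) F))
    (N : Matrix (Fin n) (Fin n) F) : Submodule F (Matrix (Fin n) (Fin n) F) :=
  Submodule.span F ((fun g : GL (Fin n) F => g.val * N * (g⁻¹).val) '' G)

/-- A nilpotent matrix whose conjugates span an isotropic Lie algebra is zero, if the group acts
semisimply. -/
def S_lie : Prop :=
  ∀ (F : Type) [Field F] [CharZero F] (n : ℕ) (G : Subgroup (GL (Fin n) F))
    (N : Matrix (Fin n) (Fin n) F),
    SSBy (Units.val '' (G : Set (GL (Fin n) F))) → IsNilpotent N →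
    N ∈ Submodule.span F (Units.val '' (G : Set (GL (Fin n) F))) →
    (∀ g ∈ G, (N * (g.val * N * (g⁻¹).val)).trace = 0) →
    (∀ x ∈ conjSpan (G : Set (GL (Fin n) F)) N, ∀ y ∈ conjSpan (G : Set (GL (Fin n) F)) N,
      x * y - y * x ∈ conjSpan (G : Set (GL (Fin n) F)) N) → N = 0

/-- The span of the conjugates of `N` is a Lie algebra, if `N` is tangent to the Zariski closure of
the powers of `A` and `A` belongs to the group. -/
def S_bra : Prop :=
  ∀ (F : Type) [Field F] [CharZero F] (n : ℕ) (G : Subgroup (GL (Fin n) F)) (A : GL (Fin n) F)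
    (N : Matrix (Fin n) (Fin n) F), A ∈ G → IsNilpotent N →
    (∀ (X Y : Matrix (Fin n) (Fin n) F) (m : ℕ), 0 < m →
      ∀ P : MvPolynomial (Fin n × Fin n) F, (∀ k : ℕ, m ∣ k → Van P (X * A.val ^ k * Y)) →
        VanD P (X * Y) (X * N * Y)) →
    ∀ x ∈ conjSpan (G : Set (GL (Fin n) F)) N, ∀ y ∈ conjSpan (G : Set (GL (Fin n) F)) N,
      x * y - y * x ∈ conjSpan (G : Set (GL (Fin n) F)) N

/-- The image of the representation `ρ`, as a set of matrices. -/
def im {Γ F : Type} [Group Γ] [Field F] {n : ℕ} (ρ : Γ →* GL (Fin n) F) :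
    Set (Matrix (Fin n) (Fin n) F) :=
  Set.range fun γ => (ρ γ).val

/-- **Generic elements of a semisimple representation are semisimple.** -/
def S_core : Prop :=
  ∀ (Γ F : Type) [Group Γ] [Field F] [CharZero F] (n : ℕ) (ρ : Γ →* GL (Fin n) F), SSBy (im ρ) →
    ∀ U : Subgroup Γ, U.Normal → U.FiniteIndex → ∀ γ : Γ,
      (∀ u ∈ U, numEig (ρ (γ * u)).val ≤ numEig (ρ γ).val) → SS (ρ γ).val

/-- A representation is semisimple if it is so on a normal subgroup and there is an element `γ`
which acts semisimply and generates, together with the normal subgroup, a subgroup of finite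
index. -/
def S_ext : Prop :=
  ∀ (Γ F : Type) [Group Γ] [Field F] [CharZero F] (n : ℕ) (ρ : Γ →* GL (Fin n) F)
    (Δ : Subgroup Γ) (γ : Γ) (Φ : Subgroup Γ), Δ.Normal →
    SSBy ((fun σ => (ρ σ).val) '' (Δ : Set Γ)) → SS (ρ γ).val → Φ.FiniteIndex →
    (∀ W : Submodule F (Fin n → F), StabBy ((fun σ => (ρ σ).val) '' (Δ : Set Γ)) W →
      (∀ w ∈ W, (ρ γ).val *ᵥ w ∈ W) → StabBy ((fun σ => (ρ σ).val) '' (Φ : Set Γ)) W) →
    SSBy (im ρ)

end Pool.Agent.NH36.Sd
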