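import Pool.Agent.NH36.Sd.Defs
import Mathlib.MeasureTheory.Group.Measure
import Mathlib.LinearAlgebra.Matrix.Block

/-!
# Semisimple Frobenius elements: block triangular matrices and families, statements
-/

set_option autoImplicit false

open Matrix Polynomial MeasureTheory Pool.Agent.NH36.Fs

namespace Pool.Agent.NH36.Sd

/-- The `j`-th diagonal block. -/
def blk {F : Type} {r : ℕ} {m : Fin r → ℕ}
    (A : Matrix (Σ j, Fin (m j)) (Σ j, Fin (m j)) F) (j : Fin r) :
    Matrix (Fin (m j)) (Fin (m j)) F :=
  Matrix.of fun a b => A ⟨j, a⟩ ⟨j, b⟩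

/-- A block triangular matrix is semisimple if the diagonal blocks are semisimple and have pairwise
coprime characteristic polynomials. -/
def S_blk : Prop :=
  ∀ (F : Type) [Field F] [CharZero F] (r : ℕ) (m : Fin r → ℕ)
    (A : Matrix (Σ j, Fin (m j)) (Σ j, Fin (m j)) F), A.BlockTriangular Sigma.fst →
    (∀ j, SS (blk A j)) →
    (∀ i j, i ≠ j → IsCoprime (blk A i).charpoly (blk A j).charpoly) →
    Module.End.IsSemisimple (Matrix.toLin' A)

/-- If a continuous representation of a compact group is semisimple on a normal subgroup `Δ`, and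
an element `γ` which generates together with `Δ` a dense subgroup of an open subgroup acts
semisimply, then the representation is semisimple and almost all elements act semisimply. -/
def S_fam : Prop :=
  ∀ (Γ F : Type) [Group Γ] [TopologicalSpace Γ] [IsTopologicalGroup Γ] [CompactSpace Γ]
    [MeasurableSpace Γ] [BorelSpace Γ] (μ : Measure Γ) [IsProbabilityMeasure μ] [μ.IsMulLeftInvariant] [Field F] [CharZero F]
    [TopologicalSpace F] [IsTopologicalRing F] [T1Space F] (n : ℕ) (ρ : Γ →* GL (Fin n) F),
    Continuous ρ → ∀ Δ : Subgroup Γ, Δ.Normal →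
    SSBy ((fun σ => (ρ σ).val) '' (Δ : Set Γ)) → ∀ γ : Γ, SS (ρ γ).val →
    IsOpen (closure ((Δ ⊔ Subgroup.zpowers γ : Subgroup Γ) : Set Γ)) →
    SSBy (im ρ) ∧ μ {σ | ¬ SS (ρ σ).val} = 0

end Pool.Agent.NH36.Sd
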