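import Pool.Agent.NH36.Sd.Defs

/-!
# Exponential polynomials vanishing at the multiples of `m` (job SD-1, helper45)
-/

set_option autoImplicit false

open Matrix Polynomial Pool.Agent.NH36.Fs

namespace Pool.Agent.NH36.Sd

namespace ExpP

variable {E : Type} [Field E]

/-- the shift of sequences -/
def sh : Module.End E (ℕ → E) where
  toFun f := fun j => f (j + 1)
  map_add' _ _ := rfl
  map_smul' _ _ := rfl

/-- the sequence `ν ^ j R(j)` -/
noncomputable def sq (ν : E) (R : E[X]) : ℕ → E := fun j => ν ^ j * R.eval (j : E)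

theorem degree_diff (R : E[X]) (hR : R ≠ 0) : (R.comp (X + 1) - R).degree < R.degree := by
  have h1 : (X + 1 : E[X]) = X + C 1 := by rw [C_1]
  have hn : natDegree (X + 1 : E[X]) = 1 := by rw [h1, natDegree_X_add_C]
  have hl : leadingCoeff (X + 1 : E[X]) = 1 := by rw [h1, leadingCoeff_X_add_C]
  have hne : R.comp (X + 1) ≠ 0 := by
    intro h
    apply hR
    rw [comp_eq_zero_iff] at h
    rcases h with h | ⟨-, h⟩
    · exact h
    · exfalso
      have := congrArg natDegree h
      rw [hn, natDegree_C] at this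
      exact one_ne_zero this
  have hd : (R.comp (X + 1)).degree = R.degree := by
    rw [degree_eq_natDegree hne, degree_eq_natDegree hR, natDegree_comp, hn, mul_one]
  have hlc : (R.comp (X + 1)).leadingCoeff = R.leadingCoeff := by
    rw [leadingCoeff_comp (by rw [hn]; exact one_ne_zero), hl, one_pow, mul_one]
  have := degree_sub_lt_left hd hne hlc
  rwa [hd] at this

theorem sq_step (ν : E) (R : E[X]) :
    (sh - ν • (1 : Module.End E (ℕ → E)) : Module.End E (ℕ → E)) (sq ν R) = ν • sq ν (R.comp (X + 1) - R) := by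
  funext j
  show sq ν R (j + 1) - ν * sq ν R j = ν * sq ν (R.comp (X + 1) - R) j
  unfold sq
  rw [eval_sub, eval_comp, eval_add, eval_X, eval_one]
  push_cast
  ring

theorem sq_ker (ν : E) (n : ℕ) : ∀ R : E[X], R.degree < n →
    ((sh - ν • (1 : Module.End E (ℕ → E)) : Module.End E (ℕ → E)) ^ n) (sq ν R) = 0 := by
  induction n with
  | zero =>
    intro R hR
    have h0 : R = 0 := by
      rw [← degree_eq_bot]
      have : R.degree < 0 := by exact_mod_cast hR
      exact (Nat.WithBot.lt_zero_iff).1 this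
    rw [h0, pow_zero]
    funext j
    show sq ν 0 j = 0
    unfold sq
    rw [eval_zero, mul_zero]
  | succ n ih =>
    intro R hR
    by_cases h0 : R = 0
    · rw [h0]
      have : sq ν (0 : E[X]) = 0 := by
        funext j
        show sq ν 0 j = 0
        unfold sq
        rw [eval_zero, mul_zero]
      rw [this, map_zero]
    rw [pow_succ, Module.End.mul_apply, sq_step, map_smul, ih, smul_zero]
    have h1 := degree_diff R h0
    rw [degree_eq_natDegree h0] at h1 hR
    have h2 : R.natDegree < n + 1 := by exact_mod_cast hR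
    refine lt_of_lt_of_le h1 ?_
    exact_mod_cast Nat.lt_succ_iff.1 h2

theorem indep [CharZero E] (s : Finset E) (hs : ∀ ν ∈ s, ν ≠ 0) (R : E → E[X])
    (h : ∀ j : ℕ, ∑ ν ∈ s, ν ^ j * (R ν).eval (j : E) = 0) : ∀ ν ∈ s, R ν = 0 := by
  have hind := Module.End.independent_maxGenEigenspace (sh : Module.End E (ℕ → E))
  rw [iSupIndep_iff_finsetSum_eq_zero_imp_eq_zero] at hind
  have h1 := hind s (fun ν => sq ν (R ν)) (fun ν _ => by
    rw [Module.End.mem_maxGenEigenspace]
    refine ⟨(R ν).natDegree + 1, sq_ker ν _ _ ?_⟩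
    exact lt_of_le_of_lt degree_le_natDegree (by exact_mod_cast Nat.lt_succ_self _)) (by
      funext j
      rw [Finset.sum_apply]
      exact h j)
  intro ν hν
  have h2 := h1 ν hν
  apply Polynomial.eq_zero_of_infinite_isRoot
  refine Set.Infinite.mono ?_ (Set.infinite_range_of_injective (Nat.cast_injective (R := E)))
  rintro _ ⟨j, rfl⟩
  have h3 : sq ν (R ν) j = 0 := congrFun h2 j
  unfold sq at h3
  rcases mul_eq_zero.1 h3 with h4 | h4
  · exact absurd h4 (pow_ne_zero _ (hs ν hν))
  · exact h4

end ExpP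

open ExpP in
theorem t_exp : S_exp := by
  classical
  intro E _ _ m hm r hr
  have hsum : r = ∑ μ ∈ r.coeff.support, MonoidAlgebra.single μ (r.coeff μ) :=
    (MonoidAlgebra.sum_coeff_single r).symm
  have hevk : ∀ k : ℕ, evk E k r = ∑ μ ∈ r.coeff.support,
      (r.coeff μ).eval (k : E) * (μ : E) ^ k := by
    intro k
    conv_lhs => rw [hsum]
    rw [map_sum]
    refine Finset.sum_congr rfl fun μ _ => ?_
    exact MonoidAlgebra.liftNC_single _ _ _ _
  have hred : red E r = ∑ μ ∈ r.coeff.support, r.coeff μ := by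
    conv_lhs => rw [hsum]
    rw [map_sum]
    refine Finset.sum_congr rfl fun μ _ => ?_
    refine (MonoidAlgebra.liftNC_single _ _ _ _).trans ?_
    exact mul_one _
  have hmE : (m : E) ≠ 0 := by exact_mod_cast hm.ne'
  -- group the terms
  let f : Eˣ → E := fun μ => (μ : E) ^ m
  let t : Finset E := r.coeff.support.image f
  let R : E → E[X] := fun ν => ∑ μ ∈ r.coeff.support.filter (fun μ => f μ = ν),
    (r.coeff μ).comp (C (m : E) * X)
  have hR : ∀ ν ∈ t, R ν = 0 := by
    apply indep t
    · intro ν hν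
      obtain ⟨μ, -, rfl⟩ := Finset.mem_image.1 hν
      exact pow_ne_zero _ μ.ne_zero
    · intro j
      have h1 := hr (m * j) (Dvd.intro j rfl)
      rw [hevk] at h1
      rw [← h1, ← Finset.sum_fiberwise_of_maps_to (g := f) (t := t)
        (fun μ hμ => Finset.mem_image_of_mem f hμ)]
      refine Finset.sum_congr rfl fun ν _ => ?_
      show ν ^ j * eval (j : E) (∑ μ ∈ r.coeff.support.filter (fun μ => f μ = ν),
        (r.coeff μ).comp (C (m : E) * X)) = _
      rw [eval_finsetSum, Finset.mul_sum]
      refine Finset.sum_congr rfl fun μ hμ => ?_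
      have hν : f μ = ν := (Finset.mem_filter.1 hμ).2
      rw [eval_comp, eval_mul, eval_C, eval_X, ← hν]
      show ((μ : E) ^ m) ^ j * _ = _
      rw [← pow_mul, mul_comm]
      push_cast
      rfl
  rw [hred, ← Finset.sum_fiberwise_of_maps_to (g := f) (t := t)
    (fun μ hμ => Finset.mem_image_of_mem f hμ)]
  refine Finset.sum_eq_zero fun ν hν => ?_
  have h2 : (∑ μ ∈ r.coeff.support.filter (fun μ => f μ = ν), r.coeff μ).comp
      (C (m : E) * X) = 0 := by
    rw [← hR ν hν, Polynomial.sum_comp]
  rw [comp_eq_zero_iff] at h2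
  rcases h2 with h2 | ⟨-, h2⟩
  · exact h2
  · exfalso
    have h3 := congrArg (fun q => coeff q 1) h2
    simp at h3
    exact hmE (by exact_mod_cast h3)

end Pool.Agent.NH36.Sd
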