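import Pool.Agent.NH36.Sd.Defs

/-!
# A representation which is semisimple on a normal subgroup and at one generator
-/

set_option autoImplicit false
set_option linter.unusedSectionVars false

namespace Pool.Agent.NH36.Sd

open Matrix Polynomial Pool.Agent.NH36.Fs Module.End

namespace Ext

section lin

variable {F M : Type} [Field F] [AddCommGroup M] [Module F M] [FiniteDimensional F M]

/-- a stable subspace is stable under the inverse -/
theorem stab_inv {f g : Module.End F M} (hfg : f * g = 1) {p : Submodule F M}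
    (hp : ∀ x ∈ p, g x ∈ p) : ∀ x ∈ p, f x ∈ p := by
  have hinj : Function.Injective g := by
    intro x y h
    have h1 := congrArg f h
    have h2 : ∀ z, f (g z) = z := fun z => LinearMap.congr_fun hfg z
    rwa [h2, h2] at h1
  have h1 : p.map g = p := by
    apply Submodule.eq_of_le_of_finrank_eq
    · rintro _ ⟨x, hx, rfl⟩
      exact hp x hx
    · exact (Submodule.equivMapOfInjective g hinj p).finrank_eq.symm
  intro x hx
  rw [← h1] at hx
  obtain ⟨y, hy, rfl⟩ := hx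
  have h2 : f (g y) = y := LinearMap.congr_fun hfg y
  rw [h2]
  exact hy

/-- the inverse of a semisimple endomorphism is semisimple -/
theorem ss_inv {f g : Module.End F M} (hfg : f * g = 1) (hgf : g * f = 1) (hf : f.IsSemisimple) :
    g.IsSemisimple := by
  rw [isSemisimple_iff] at hf ⊢
  intro p hp
  obtain ⟨q, hq, hpq⟩ := hf p (fun x hx => stab_inv (p := p) hfg (fun y hy => hp hy) x hx)
  exact ⟨q, fun x hx => stab_inv (p := q) hgf (fun y hy => hq hy) x hx, hpq⟩

theorem aeval_mulLeft (f : Module.End F M) (p : F[X]) (g : Module.End F M) :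
    (aeval (LinearMap.mulLeft F f) p) g = aeval f p * g := by
  induction p using Polynomial.induction_on' with
  | add p q hp hq => rw [map_add, map_add, LinearMap.add_apply, hp, hq, add_mul]
  | monomial n a =>
    rw [aeval_monomial, aeval_monomial, LinearMap.pow_mulLeft, Module.End.mul_apply,
      LinearMap.mulLeft_apply, mul_assoc]
    rw [Module.algebraMap_end_apply, Algebra.smul_def]

theorem aeval_mulRight (f : Module.End F M) (p : F[X]) (g : Module.End F M) :
    (aeval (LinearMap.mulRight F f) p) g = g * aeval f p := by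
  induction p using Polynomial.induction_on' with
  | add p q hp hq => rw [map_add, map_add, LinearMap.add_apply, hp, hq, mul_add]
  | monomial n a =>
    rw [aeval_monomial, aeval_monomial, LinearMap.pow_mulRight, Module.End.mul_apply,
      LinearMap.mulRight_apply, ← mul_assoc g, ← Algebra.commutes, mul_assoc]
    rw [Module.algebraMap_end_apply, Algebra.smul_def]

/-- conjugation by a semisimple automorphism is semisimple -/
theorem ss_conj' [CharZero F] {f g : Module.End F M} (hfg : f * g = 1) (hgf : g * f = 1)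
    (hf : f.IsSemisimple) : Module.End.IsSemisimple (LinearMap.mulLeft F f * LinearMap.mulRight F g :
      Module.End F (Module.End F M)) := by
  have hg := ss_inv hfg hgf hf
  refine IsSemisimple.mul_of_commute (LinearMap.commute_mulLeft_right f g) ?_ ?_
  · refine isSemisimple_of_squarefree_aeval_eq_zero hf.minpoly_squarefree ?_
    ext1 h
    rw [aeval_mulLeft, minpoly.aeval, zero_mul]
    rfl
  · refine isSemisimple_of_squarefree_aeval_eq_zero hg.minpoly_squarefree ?_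
    ext1 h
    rw [aeval_mulRight, minpoly.aeval, mul_zero]
    rfl

end lin

section rep

variable {F M Γ : Type} [Field F] [CharZero F] [AddCommGroup M] [Module F M]
  [FiniteDimensional F M] [Group Γ] (R : Γ →* Module.End F M)

theorem mul_inv' (σ : Γ) : R σ * R σ⁻¹ = 1 := by rw [← map_mul, mul_inv_cancel, map_one]

theorem inv_mul' (σ : Γ) : R σ⁻¹ * R σ = 1 := by rw [← map_mul, inv_mul_cancel, map_one]

theorem app_mul (σ τ : Γ) (v : M) : R (σ * τ) v = R σ (R τ v) := by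
  rw [map_mul]
  rfl

theorem app_inv (σ : Γ) (v : M) : R σ (R σ⁻¹ v) = v := LinearMap.congr_fun (mul_inv' R σ) v

theorem app_inv' (σ : Γ) (v : M) : R σ⁻¹ (R σ v) = v := LinearMap.congr_fun (inv_mul' R σ) v

/-- Step 1: a projection which commutes with `Δ` and `γ` -/
theorem step1 {Δ : Subgroup Γ} {γ : Γ} (hΔ : Δ.Normal) (hγ : (R γ).IsSemisimple)
    {W : Submodule F M} (hW : ∀ σ, ∀ w ∈ W, R σ w ∈ W)
    {W' : Submodule F M} (hW' : ∀ σ ∈ Δ, ∀ w ∈ W', R σ w ∈ W') (hc : IsCompl W W') :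
    ∃ e : Module.End F M, (∀ v, e v ∈ W) ∧ (∀ w ∈ W, e w = w) ∧
      (∀ σ ∈ Δ, e * R σ = R σ * e) ∧ e * R γ = R γ * e := by
  set T : Module.End F (Module.End F M) :=
    LinearMap.mulLeft F (R γ) * LinearMap.mulRight F (R γ⁻¹) with hT
  have hTa : ∀ f, T f = R γ * f * R γ⁻¹ := by
    intro f
    rw [hT, Module.End.mul_apply, LinearMap.mulRight_apply, LinearMap.mulLeft_apply, mul_assoc]
  have hTs : T.IsSemisimple := ss_conj' (mul_inv' R γ) (inv_mul' R γ) hγ
  let E0 : Submodule F (Module.End F M) :=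
    { carrier := {f | (∀ v, f v ∈ W) ∧ ∀ σ ∈ Δ, f * R σ = R σ * f}
      add_mem' := by
        rintro f g ⟨h1, h2⟩ ⟨h3, h4⟩
        refine ⟨fun v => ?_, fun σ hσ => ?_⟩
        · rw [LinearMap.add_apply]
          exact W.add_mem (h1 v) (h3 v)
        · rw [add_mul, mul_add, h2 σ hσ, h4 σ hσ]
      zero_mem' := by
        refine ⟨fun v => ?_, fun σ hσ => ?_⟩
        · rw [LinearMap.zero_apply]
          exact W.zero_mem
        · rw [zero_mul, mul_zero]
      smul_mem' := by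
        rintro c f ⟨h1, h2⟩
        refine ⟨fun v => ?_, fun σ hσ => ?_⟩
        · rw [LinearMap.smul_apply]
          exact W.smul_mem c (h1 v)
        · rw [smul_mul_assoc, mul_smul_comm, h2 σ hσ] }
  have hE0 : ∀ f, f ∈ E0 ↔ (∀ v, f v ∈ W) ∧ ∀ σ ∈ Δ, f * R σ = R σ * f := fun f => Iff.rfl
  let K0 : Submodule F (Module.End F M) :=
    { carrier := {f | f ∈ E0 ∧ ∀ w ∈ W, f w = 0}
      add_mem' := by
        rintro f g ⟨h1, h2⟩ ⟨h3, h4⟩
        refine ⟨E0.add_mem h1 h3, fun w hw => ?_⟩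
        rw [LinearMap.add_apply, h2 w hw, h4 w hw, add_zero]
      zero_mem' := ⟨E0.zero_mem, fun w hw => rfl⟩
      smul_mem' := by
        rintro c f ⟨h1, h2⟩
        refine ⟨E0.smul_mem c h1, fun w hw => ?_⟩
        rw [LinearMap.smul_apply, h2 w hw, smul_zero] }
  have hK0 : ∀ f, f ∈ K0 ↔ f ∈ E0 ∧ ∀ w ∈ W, f w = 0 := fun f => Iff.rfl
  have hTE : ∀ f ∈ E0, T f ∈ E0 := by
    intro f hf
    obtain ⟨h1, h2⟩ := (hE0 f).1 hf
    rw [hE0, hTa]
    refine ⟨fun v => ?_, fun σ hσ => ?_⟩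
    · rw [Module.End.mul_apply, Module.End.mul_apply]
      exact hW γ _ (h1 _)
    · have h3 : γ⁻¹ * σ * γ ∈ Δ := by
        have := hΔ.conj_mem σ hσ γ⁻¹
        rwa [inv_inv] at this
      have h4 := h2 _ h3
      have e1 : R γ⁻¹ * R σ = R (γ⁻¹ * σ * γ) * R γ⁻¹ := by
        rw [← map_mul, ← map_mul]
        congr 1
        group
      have e2 : R γ * R (γ⁻¹ * σ * γ) = R σ * R γ := by
        rw [← map_mul, ← map_mul]
        congr 1
        group
      calc R γ * f * R γ⁻¹ * R σ = R γ * f * (R γ⁻¹ * R σ) := by rw [mul_assoc]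
        _ = R γ * (f * R (γ⁻¹ * σ * γ)) * R γ⁻¹ := by rw [e1]; simp only [mul_assoc]
        _ = (R γ * R (γ⁻¹ * σ * γ)) * f * R γ⁻¹ := by rw [h4]; simp only [mul_assoc]
        _ = R σ * (R γ * f * R γ⁻¹) := by rw [e2]; simp only [mul_assoc]
  have hTK : K0 ∈ invtSubmodule T := by
    intro f hf
    obtain ⟨h1, h2⟩ := (hK0 f).1 hf
    rw [Submodule.mem_comap, hK0]
    refine ⟨hTE f h1, fun w hw => ?_⟩
    rw [hTa, Module.End.mul_apply, Module.End.mul_apply, h2 _ (hW γ⁻¹ w hw), map_zero]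
  obtain ⟨C, hC, hKC⟩ := isSemisimple_iff.1 hTs K0 hTK
  -- the projection along `W'`
  obtain ⟨e1, he1, he1W, he1W'⟩ : ∃ e1 : Module.End F M, (∀ v, e1 v ∈ W) ∧ (∀ w ∈ W, e1 w = w) ∧
      ∀ w ∈ W', e1 w = 0 := by
    refine ⟨W.subtype ∘ₗ (W.projectionOnto W' hc), fun v => ?_, fun w hw => ?_,
      fun w hw => ?_⟩
    · exact (W.projectionOnto W' hc v).2
    · show ((W.projectionOnto W' hc w : W) : M) = w
      rw [Submodule.projectionOnto_apply_left hc ⟨w, hw⟩]
    · show ((W.projectionOnto W' hc w : W) : M) = 0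
      rw [Submodule.projectionOnto_apply_of_mem_right hc hw]
      rfl
  have he1E : e1 ∈ E0 := by
    rw [hE0]
    refine ⟨he1, fun σ hσ => ?_⟩
    ext1 v
    have hv : v ∈ W ⊔ W' := by rw [hc.sup_eq_top]; exact Submodule.mem_top
    obtain ⟨a, ha, b, hb, rfl⟩ := Submodule.mem_sup.1 hv
    rw [Module.End.mul_apply, Module.End.mul_apply, map_add, map_add, map_add, he1W a ha,
      he1W' b hb, he1W _ (hW σ a ha), he1W' _ (hW' σ hσ b hb), add_zero, add_zero]
  obtain ⟨k, hk, e, he, hke⟩ : ∃ k ∈ K0, ∃ e ∈ C, k + e = e1 := by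
    apply Submodule.mem_sup.1
    rw [hKC.sup_eq_top]
    exact Submodule.mem_top
  have hkE : k ∈ E0 := ((hK0 k).1 hk).1
  have heE : e ∈ E0 := by
    have : e = e1 - k := by rw [← hke]; abel
    rw [this]
    exact E0.sub_mem he1E hkE
  have heW : ∀ w ∈ W, e w = w := by
    intro w hw
    have : e = e1 - k := by rw [← hke]; abel
    rw [this, LinearMap.sub_apply, he1W w hw, ((hK0 k).1 hk).2 w hw, sub_zero]
  have hTe : T e - e ∈ K0 := by
    rw [hK0]
    refine ⟨E0.sub_mem (hTE e heE) heE, fun w hw => ?_⟩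
    rw [LinearMap.sub_apply, hTa, Module.End.mul_apply, Module.End.mul_apply,
      heW _ (hW γ⁻¹ w hw), app_inv, heW w hw, sub_self]
  have hTe' : T e - e ∈ C := C.sub_mem (hC he) he
  have h0 : T e - e = 0 := by
    have : T e - e ∈ K0 ⊓ C := ⟨hTe, hTe'⟩
    rw [hKC.inf_eq_bot] at this
    exact (Submodule.mem_bot F).1 this
  obtain ⟨h1, h2⟩ := (hE0 e).1 heE
  refine ⟨e, h1, heW, h2, ?_⟩
  rw [sub_eq_zero, hTa] at h0
  calc e * R γ = R γ * e * R γ⁻¹ * R γ := by rw [h0]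
    _ = R γ * e := by rw [mul_assoc, inv_mul', mul_one]

/-- Step 3: averaging -/
theorem step3 {Φ : Subgroup Γ} [Φ.FiniteIndex] {W : Submodule F M} (hW : ∀ σ, ∀ w ∈ W, R σ w ∈ W)
    {e : Module.End F M} (h1 : ∀ v, e v ∈ W) (h2 : ∀ w ∈ W, e w = w)
    (h3 : ∀ σ ∈ Φ, e * R σ = R σ * e) : ∃ W' : Submodule F M, (∀ σ, ∀ w ∈ W', R σ w ∈ W') ∧
      IsCompl W W' := by
  classical
  let _ : Fintype (Γ ⧸ Φ) := Subgroup.fintypeQuotientOfFiniteIndex
  set G : Γ → Module.End F M := fun g => R g * e * R g⁻¹ with hG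
  have hGΦ : ∀ g, ∀ φ ∈ Φ, G (g * φ) = G g := by
    intro g φ hφ
    show R (g * φ) * e * R (g * φ)⁻¹ = R g * e * R g⁻¹
    rw [_root_.mul_inv_rev, map_mul, map_mul]
    calc R g * R φ * e * (R φ⁻¹ * R g⁻¹) = R g * (R φ * e) * R φ⁻¹ * R g⁻¹ := by
          simp only [mul_assoc]
      _ = R g * e * (R φ * R φ⁻¹) * R g⁻¹ := by rw [← h3 φ hφ]; simp only [mul_assoc]
      _ = R g * e * R g⁻¹ := by rw [mul_inv', mul_one]
  have hGq : ∀ g : Γ, G ((QuotientGroup.mk g : Γ ⧸ Φ).out) = G g := by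
    intro g
    obtain ⟨φ, hφ⟩ := QuotientGroup.mk_out_eq_mul Φ g
    rw [hφ]
    exact hGΦ g φ φ.2
  set S : Module.End F M := ∑ q : Γ ⧸ Φ, G q.out with hS
  have hSσ : ∀ σ, R σ * S * R σ⁻¹ = S := by
    intro σ
    have h4 : ∀ q : Γ ⧸ Φ, R σ * G q.out * R σ⁻¹ = G ((σ • q).out) := by
      intro q
      have h5 : σ • q = (QuotientGroup.mk (σ * q.out) : Γ ⧸ Φ) := by
        conv_lhs => rw [← QuotientGroup.out_eq' q]
        rfl
      rw [h5, hGq]
      show R σ * (R q.out * e * R q.out⁻¹) * R σ⁻¹ = R (σ * q.out) * e * R (σ * q.out)⁻¹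
      rw [_root_.mul_inv_rev, map_mul, map_mul]
      simp only [mul_assoc]
    rw [hS, Finset.mul_sum, Finset.sum_mul, Finset.sum_congr rfl fun q _ => h4 q]
    exact Equiv.sum_comp (MulAction.toPerm σ : Equiv.Perm (Γ ⧸ Φ)) fun q => G q.out
  have hS1 : ∀ v, S v ∈ W := by
    intro v
    rw [hS, LinearMap.sum_apply]
    exact W.sum_mem fun q _ => hW _ _ (h1 _)
  have hS2 : ∀ w ∈ W, S w = (Fintype.card (Γ ⧸ Φ) : F) • w := by
    intro w hw
    rw [hS, LinearMap.sum_apply]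
    have h4 : ∀ q : Γ ⧸ Φ, G q.out w = w := by
      intro q
      show R q.out (e (R q.out⁻¹ w)) = w
      rw [h2 _ (hW _ w hw), app_inv]
    rw [Finset.sum_congr rfl fun q _ => h4 q, Finset.sum_const, Finset.card_univ,
      Nat.cast_smul_eq_nsmul]
  have hcard : (Fintype.card (Γ ⧸ Φ) : F) ≠ 0 := by
    exact_mod_cast Fintype.card_ne_zero
  have hSc : ∀ σ v, S (R σ v) = R σ (S v) := by
    intro σ v
    have h4 : S * R σ = R σ * S := by
      calc S * R σ = R σ * S * R σ⁻¹ * R σ := by rw [hSσ]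
        _ = R σ * S := by rw [mul_assoc, inv_mul', mul_one]
    exact LinearMap.congr_fun h4 v
  refine ⟨LinearMap.ker S, fun σ w hw => ?_, ?_⟩
  · rw [LinearMap.mem_ker] at hw ⊢
    rw [hSc, hw, map_zero]
  · constructor
    · rw [disjoint_iff, Submodule.eq_bot_iff]
      rintro w ⟨hw1, hw2⟩
      have hw2' : S w = 0 := LinearMap.mem_ker.1 hw2
      rw [hS2 w hw1] at hw2'
      exact (smul_eq_zero.1 hw2').resolve_left hcard
    · rw [codisjoint_iff, Submodule.eq_top_iff']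
      intro v
      rw [Submodule.mem_sup]
      refine ⟨(Fintype.card (Γ ⧸ Φ) : F)⁻¹ • S v, W.smul_mem _ (hS1 v),
        v - (Fintype.card (Γ ⧸ Φ) : F)⁻¹ • S v, ?_, by abel⟩
      rw [LinearMap.mem_ker, map_sub, map_smul, hS2 _ (hS1 v), smul_smul, inv_mul_cancel₀ hcard,
        one_smul, sub_self]

end rep

end Ext

theorem t_ext : S_ext := by
  intro Γ F _ _ _ n ρ Δ γ Φ hΔ hss hγ hΦ hst W hW
  let R : Γ →* Module.End F (Fin n → F) :=
    ((Matrix.toLinAlgEquiv' : Matrix (Fin n) (Fin n) F ≃ₐ[F] _).toAlgHom : _ →* _).comp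
      ((Units.coeHom _).comp ρ)
  have hR : ∀ σ v, R σ v = (ρ σ).val *ᵥ v := fun σ v => Matrix.toLinAlgEquiv'_apply _ _
  have hW0 : ∀ σ, ∀ w ∈ W, R σ w ∈ W := by
    intro σ w hw
    rw [hR]
    exact hW _ ⟨σ, rfl⟩ w hw
  obtain ⟨W', hW', hc⟩ := hss W (by
    rintro _ ⟨σ, hσ, rfl⟩ w hw
    exact hW _ ⟨σ, rfl⟩ w hw)
  obtain ⟨e, h1, h2, h3, h4⟩ := Ext.step1 R hΔ (γ := γ) hγ hW0 (W' := W') (fun σ hσ w hw => by
    rw [hR]
    exact hW' _ ⟨σ, hσ, rfl⟩ w hw) hc
  have hker := hst (LinearMap.ker e) (by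
    rintro _ ⟨σ, hσ, rfl⟩ w hw
    rw [LinearMap.mem_ker] at hw ⊢
    have h5 : e (R σ w) = R σ (e w) := LinearMap.congr_fun (h3 σ hσ) w
    rw [hR] at h5
    rw [h5, hw, map_zero]) (by
    intro w hw
    rw [LinearMap.mem_ker] at hw ⊢
    have h5 : e (R γ w) = R γ (e w) := LinearMap.congr_fun h4 w
    rw [hR] at h5
    rw [h5, hw, map_zero])
  have h5 : ∀ σ ∈ Φ, e * R σ = R σ * e := by
    intro σ hσ
    refine LinearMap.ext fun v => ?_
    show e (R σ v) = R σ (e v)
    have hv : v - e v ∈ LinearMap.ker e := by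
      rw [LinearMap.mem_ker, map_sub, h2 _ (h1 v), sub_self]
    have h6 := hker _ ⟨σ, hσ, rfl⟩ _ hv
    rw [LinearMap.mem_ker] at h6
    have h7 : e (R σ (v - e v)) = 0 := by
      rw [hR]
      exact h6
    rw [map_sub, map_sub, h2 _ (hW0 σ _ (h1 v)), sub_eq_zero] at h7
    exact h7
  obtain ⟨W'', hW'', hc''⟩ := Ext.step3 R (Φ := Φ) hW0 h1 h2 h5
  refine ⟨W'', ?_, hc''⟩
  rintro _ ⟨σ, rfl⟩ w hw
  have := hW'' σ w hw
  rwa [hR] at this

end Pool.Agent.NH36.Sd
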