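import Pool.Agent.NH36.Sd.Defs2
import Pool.Agent.NH36.Fs.Alg

/-!
# SD-10: families
-/

set_option autoImplicit false
set_option linter.unusedSectionVars false

open Matrix Polynomial MeasureTheory Pool.Agent.NH36.Fs

namespace Pool.Agent.NH36.Sd

namespace Fam87

section closed

variable {Γ F : Type} [Group Γ] [TopologicalSpace Γ] [Field F] [TopologicalSpace F]
  [IsTopologicalRing F] [T1Space F] {n : ℕ} (ρ : Γ →* GL (Fin n) F)

/-- a subspace is closed -/
theorem isClosed_sub (W : Submodule F (Fin n → F)) : IsClosed (W : Set (Fin n → F)) := by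
  have h1 : (W : Set (Fin n → F)) =
      ⋂ l ∈ {l : Module.Dual F (Fin n → F) | l ∈ W.dualAnnihilator}, {v | l v = 0} := by
    ext v
    simp only [Set.mem_iInter]
    constructor
    · intro hv l hl
      exact (Submodule.mem_dualAnnihilator l).1 hl v hv
    · intro hv
      exact (Subspace.forall_mem_dualAnnihilator_apply_eq_zero_iff W v).1 hv
  rw [h1]
  refine isClosed_biInter fun l _ => ?_
  exact isClosed_singleton.preimage (LinearMap.continuous_on_pi l)

/-- the elements which map `W` to `W` -/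
theorem isClosed_stab (hρ : Continuous ρ) (W : Submodule F (Fin n → F)) :
    IsClosed {σ : Γ | ∀ w ∈ W, (ρ σ).val *ᵥ w ∈ W} := by
  have h1 : {σ : Γ | ∀ w ∈ W, (ρ σ).val *ᵥ w ∈ W} =
      ⋂ w ∈ W, {σ : Γ | (ρ σ).val *ᵥ w ∈ W} := by
    ext σ
    simp only [Set.mem_iInter]
    exact Iff.rfl
  rw [h1]
  refine isClosed_biInter fun w _ => ?_
  exact (isClosed_sub W).preimage ((Units.continuous_val.comp hρ).matrix_mulVec continuous_const)

end closed

section alg

variable {Γ F : Type} [Group Γ] [Field F] {n : ℕ} (ρ : Γ →* GL (Fin n) F)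

theorem mulVec_mulVec' (a b : Γ) (w : Fin n → F) :
    (ρ (a * b)).val *ᵥ w = (ρ a).val *ᵥ ((ρ b).val *ᵥ w) := by
  rw [map_mul, Units.val_mul, Matrix.mulVec_mulVec]

/-- a subspace which is mapped to itself by `γ` is mapped to itself by the inverse -/
theorem inv_stab (γ : Γ) (W : Submodule F (Fin n → F)) (h : ∀ w ∈ W, (ρ γ).val *ᵥ w ∈ W) :
    ∀ w ∈ W, (ρ γ⁻¹).val *ᵥ w ∈ W := by
  intro w hw
  have hinv : ∀ v : Fin n → F, (ρ γ⁻¹).val *ᵥ ((ρ γ).val *ᵥ v) = v := by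
    intro v
    rw [← mulVec_mulVec', inv_mul_cancel, map_one, Units.val_one, Matrix.one_mulVec]
  let f : W →ₗ[F] W := (Matrix.toLin' (ρ γ).val).restrict (p := W) (q := W) (fun x hx => by
    rw [Matrix.toLin'_apply]
    exact h x hx)
  have hf : ∀ x : W, ((f x : W) : Fin n → F) = (ρ γ).val *ᵥ (x : Fin n → F) := by
    intro x
    rfl
  have hinj : Function.Injective f := by
    intro x y hxy
    have h1 := congrArg (fun z : W => (ρ γ⁻¹).val *ᵥ (z : Fin n → F)) hxy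
    simp only [hf, hinv] at h1
    exact Subtype.ext h1
  obtain ⟨x, hx⟩ := (LinearMap.injective_iff_surjective.1 hinj) ⟨w, hw⟩
  have h2 : (ρ γ).val *ᵥ (x : Fin n → F) = w := by
    rw [← hf, hx]
  rw [← h2, hinv]
  exact x.2

/-- the subgroup of the elements which map `W` onto `W` -/
def stab (W : Submodule F (Fin n → F)) : Subgroup Γ where
  carrier := {σ | ∀ w ∈ W, (ρ σ).val *ᵥ w ∈ W}
  one_mem' := by
    intro w hw
    rw [map_one, Units.val_one, Matrix.one_mulVec]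
    exact hw
  mul_mem' := by
    intro a b ha hb w hw
    rw [mulVec_mulVec']
    exact ha _ (hb w hw)
  inv_mem' := by
    intro a ha
    exact inv_stab ρ a W ha

end alg

section meas

variable {Γ F : Type} [Group Γ] [TopologicalSpace Γ] [IsTopologicalGroup Γ] [CompactSpace Γ]
  [MeasurableSpace Γ] [BorelSpace Γ] (μ : Measure Γ) [IsProbabilityMeasure μ]
  [μ.IsMulLeftInvariant] [Field F] [CharZero F]
  [TopologicalSpace F] [IsTopologicalRing F] [T1Space F] {n : ℕ} (ρ : Γ →* GL (Fin n) F)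

/-- a coset of a connected open subgroup and a polynomial function on it -/
theorem null_coset (hρ : ∀ i j, Continuous fun γ => (ρ γ).val i j) {Δ : Subgroup Γ}
    (hΔ : IsOpen (Δ : Set Γ)) (hc : Conn ρ Δ) (q : Γ ⧸ Δ) (γ₀ : Γ) (hγ₀ : (γ₀ : Γ ⧸ Δ) = q)
    (f : Γ → F) (hf : f ∈ polyFun ρ) (hfγ : f γ₀ ≠ 0) :
    μ {x : Γ | (x : Γ ⧸ Δ) = q ∧ f x = 0} = 0 := by
  by_contra hne
  have h1 := measure_preimage_mul μ γ₀ {x : Γ | (x : Γ ⧸ Δ) = q ∧ f x = 0}
  have h2 : (fun h => γ₀ * h) ⁻¹' {x : Γ | (x : Γ ⧸ Δ) = q ∧ f x = 0} =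
      {x | x ∈ Δ ∧ f (γ₀ * x) = 0} := by
    ext x
    refine and_congr_left fun _ => ?_
    constructor
    · intro hx
      have h3 := QuotientGroup.eq.1 (hγ₀.trans (Eq.symm hx))
      rwa [inv_mul_cancel_left] at h3
    · intro hx
      exact (QuotientGroup.mk_mul_of_mem _ hx).trans hγ₀
  rw [h2] at h1
  have h4 := eq_zero_of_measure μ ρ hρ hΔ hc (left_mem ρ γ₀ hf) (by
    rw [h1]
    exact hne) 1 Δ.one_mem
  simp only [mul_one] at h4
  exact hfγ h4

end meas

end Fam87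

open Fam87 in
theorem t_fam (hc : S_core) (he : S_ext) : S_fam := by
  classical
  intro Γ F _ _ _ _ _ _ μ _ _ _ _ _ _ _ n ρ hρ Δ hΔ hss γ hγ hopen
  have hρ' : ∀ i j, Continuous fun σ => (ρ σ).val i j := fun i j =>
    (Units.continuous_val.comp hρ).matrix_elem i j
  -- the whole group acts semisimply
  have hS : SSBy (im ρ) := by
    let Φ : Subgroup Γ := (Δ ⊔ Subgroup.zpowers γ).topologicalClosure
    have hΦ : IsOpen (Φ : Set Γ) := by
      rw [Subgroup.topologicalClosure_coe]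
      exact hopen
    have hfi : Φ.FiniteIndex := by
      have := Φ.quotient_finite_of_isOpen hΦ
      exact Subgroup.finiteIndex_of_finite_quotient
    refine he Γ F n ρ Δ γ Φ hΔ hss hγ hfi ?_
    intro W hW hWγ
    have h1 : Δ ⊔ Subgroup.zpowers γ ≤ stab ρ W := by
      refine sup_le ?_ ?_
      · intro σ hσ w hw
        exact hW _ ⟨σ, hσ, rfl⟩ w hw
      · rw [Subgroup.zpowers_le]
        exact hWγ
    have h2 : (Φ : Set Γ) ⊆ {σ : Γ | ∀ w ∈ W, (ρ σ).val *ᵥ w ∈ W} := by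
      rw [Subgroup.topologicalClosure_coe]
      exact closure_minimal h1 (isClosed_stab ρ hρ W)
    rintro _ ⟨σ, hσ, rfl⟩ w hw
    exact h2 hσ w hw
  refine ⟨hS, ?_⟩
  obtain ⟨U, hUn, hUo, hUc⟩ := exists_conn ρ
  have hfin : Finite (Γ ⧸ U) := U.quotient_finite_of_isOpen hUo
  have hUfi : U.FiniteIndex := Subgroup.finiteIndex_of_finite_quotient
  -- the elements with the maximal number of eigenvalues
  have hmax : ∀ q : Γ ⧸ U, ∃ γ₀ : Γ, (γ₀ : Γ ⧸ U) = q ∧
      ∀ x : Γ, (x : Γ ⧸ U) = q → numEig (ρ x).val ≤ numEig (ρ γ₀).val := by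
    intro q
    induction q using QuotientGroup.induction_on with
    | H σ =>
      have hb : BddAbove {k | ∃ x : Γ, (x : Γ ⧸ U) = (σ : Γ ⧸ U) ∧ numEig (ρ x).val = k} :=
        ⟨n, by rintro _ ⟨x, -, rfl⟩; exact numEig_le _⟩
      obtain ⟨γ₀, h1, h2⟩ := Nat.sSup_mem
        (s := {k | ∃ x : Γ, (x : Γ ⧸ U) = (σ : Γ ⧸ U) ∧ numEig (ρ x).val = k}) ⟨_, σ, rfl, rfl⟩ hb
      refine ⟨γ₀, h1, fun x hx => ?_⟩
      rw [h2]
      exact le_csSup hb ⟨x, hx, rfl⟩
  choose γ₀ hγ₀ hle using hmax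
  refine measure_mono_null (t := ⋃ q : Γ ⧸ U, {x : Γ | (x : Γ ⧸ U) = q ∧
    hank (numEig (ρ (γ₀ q)).val) (ρ x).val = 0}) ?_ ?_
  · intro x hx
    refine Set.mem_iUnion.2 ⟨(x : Γ ⧸ U), rfl, ?_⟩
    apply hank_eq_zero
    by_contra h1
    apply hx
    refine hc Γ F n ρ hS U hUn hUfi x fun u hu => ?_
    have h2 : ((x * u : Γ) : Γ ⧸ U) = (x : Γ ⧸ U) := QuotientGroup.mk_mul_of_mem _ hu
    exact (hle _ _ h2).trans (not_lt.1 h1)
  · rw [measure_iUnion_null_iff]
    intro q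
    exact null_coset μ ρ hρ' hUo hUc q (γ₀ q) (hγ₀ q)
      (fun x => hank (numEig (ρ (γ₀ q)).val) (ρ x).val) (hank_mem ρ _) (hank_ne_zero rfl)

end Pool.Agent.NH36.Sd
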