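import Pool.Agent.NH36.Sd.Fam

/-!
# Families: the exceptional set is contained in a closed null set which is stable under conjugation
-/

set_option autoImplicit false
set_option linter.unusedSectionVars false

open Matrix Polynomial MeasureTheory Pool.Agent.NH36.Fs

namespace Pool.Agent.NH36.Sd

/-- The set `Z` of elements of a group is closed and stable under conjugation. -/
def ClosedConj {Γ : Type} [Group Γ] [TopologicalSpace Γ] (Z : Set Γ) : Prop :=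
  IsClosed Z ∧ ∀ σ ∈ Z, ∀ τ : Γ, τ * σ * τ⁻¹ ∈ Z

open Fam87 in
theorem fam2 (hc : S_core) (he : S_ext) (Γ F : Type) [Group Γ] [TopologicalSpace Γ]
    [IsTopologicalGroup Γ] [CompactSpace Γ] [MeasurableSpace Γ] [BorelSpace Γ] (μ : Measure Γ)
    [IsProbabilityMeasure μ] [μ.IsMulLeftInvariant] [Field F] [CharZero F] [TopologicalSpace F]
    [IsTopologicalRing F] [T1Space F] (n : ℕ) (ρ : Γ →* GL (Fin n) F) (hρ : Continuous ρ)
    (Δ : Subgroup Γ) (hΔ : Δ.Normal) (hss : SSBy ((fun σ => (ρ σ).val) '' (Δ : Set Γ))) (γ : Γ)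
    (hγ : SS (ρ γ).val)
    (hopen : IsOpen (closure ((Δ ⊔ Subgroup.zpowers γ : Subgroup Γ) : Set Γ))) :
    SSBy (im ρ) ∧ ∃ Z : Set Γ, ClosedConj Z ∧ μ Z = 0 ∧ ∀ σ ∉ Z, SS (ρ σ).val := by
  classical
  have hρ' : ∀ i j, Continuous fun σ => (ρ σ).val i j := fun i j =>
    (Units.continuous_val.comp hρ).matrix_elem i j
  have hS : SSBy (im ρ) := (t_fam hc he Γ F μ n ρ hρ Δ hΔ hss γ hγ hopen).1
  refine ⟨hS, ?_⟩
  obtain ⟨U, hUn, hUo, hUc⟩ := exists_conn ρ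
  have hfin : Finite (Γ ⧸ U) := U.quotient_finite_of_isOpen hUo
  have hUfi : U.FiniteIndex := Subgroup.finiteIndex_of_finite_quotient
  have hUcl : IsClosed (U : Set Γ) := U.isClosed_of_isOpen hUo
  have hmax : ∀ q : Γ ⧸ U, ∃ γ₀ : Γ, (γ₀ : Γ ⧸ U) = q ∧
      ∀ x : Γ, (x : Γ ⧸ U) = q → numEig (ρ x).val ≤ numEig (ρ γ₀).val := by
    intro q
    induction q using QuotientGroup.induction_on with
    | H σ =>
      have hb : BddAbove {k | ∃ x : Γ, (x : Γ ⧸ U) = (σ : Γ ⧸ U) ∧ numEig (ρ x).val = k} :=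
        ⟨n, by rintro _ ⟨x, -, rfl⟩; exact numEig_le _⟩
      obtain ⟨γ₀, h1, h2⟩ := Nat.sSup_mem
        (s := {k | ∃ x : Γ, (x : Γ ⧸ U) = (σ : Γ ⧸ U) ∧ numEig (ρ x).val = k}) ⟨_, σ, rfl, rfl⟩ hb
      refine ⟨γ₀, h1, fun x hx => ?_⟩
      rw [h2]
      exact le_csSup hb ⟨x, hx, rfl⟩
  choose γ₀ hγ₀ hle using hmax
  have hmem : ∀ x : Γ, hank (numEig (ρ (γ₀ (x : Γ ⧸ U))).val) (ρ x).val = 0 ↔
      numEig (ρ x).val < numEig (ρ (γ₀ (x : Γ ⧸ U))).val := by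
    intro x
    constructor
    · intro h
      refine lt_of_le_of_ne (hle _ _ rfl) fun h1 => ?_
      exact hank_ne_zero h1 h
    · exact fun h => hank_eq_zero h
  have hnc : ∀ x τ : Γ, numEig (ρ (τ * x * τ⁻¹)).val = numEig (ρ x).val := by
    intro x τ
    rw [map_mul, map_mul, map_inv, Units.val_mul, Units.val_mul]
    exact numEig_conj _ _
  have hcl : ∀ x τ y : Γ, (y : Γ ⧸ U) = (x : Γ ⧸ U) →
      ((τ * y * τ⁻¹ : Γ) : Γ ⧸ U) = ((τ * x * τ⁻¹ : Γ) : Γ ⧸ U) := by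
    intro x τ y h
    rw [QuotientGroup.eq] at h ⊢
    have h1 : (τ * y * τ⁻¹)⁻¹ * (τ * x * τ⁻¹) = τ * (y⁻¹ * x) * τ⁻¹ := by group
    rw [h1]
    exact hUn.conj_mem _ h τ
  have hmx : ∀ x τ : Γ, numEig (ρ (γ₀ (x : Γ ⧸ U))).val ≤
      numEig (ρ (γ₀ ((τ * x * τ⁻¹ : Γ) : Γ ⧸ U))).val := by
    intro x τ
    rw [← hnc (γ₀ (x : Γ ⧸ U)) τ]
    exact hle _ _ (hcl x τ _ (hγ₀ _))
  refine ⟨{x | numEig (ρ x).val < numEig (ρ (γ₀ (x : Γ ⧸ U))).val}, ⟨?_, ?_⟩, ?_, ?_⟩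
  · have h1 : {x : Γ | numEig (ρ x).val < numEig (ρ (γ₀ (x : Γ ⧸ U))).val} =
        ⋃ q : Γ ⧸ U, {x : Γ | (x : Γ ⧸ U) = q ∧
          hank (numEig (ρ (γ₀ q)).val) (ρ x).val = 0} := by
      ext x
      rw [Set.mem_iUnion]
      constructor
      · intro hx
        exact ⟨_, rfl, (hmem x).2 hx⟩
      · rintro ⟨q, rfl, hx⟩
        exact (hmem x).1 hx
    rw [h1]
    refine isClosed_iUnion_of_finite fun q => ?_
    have h2 : {x : Γ | (x : Γ ⧸ U) = q ∧ hank (numEig (ρ (γ₀ q)).val) (ρ x).val = 0} =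
        ((fun x => (γ₀ q)⁻¹ * x) ⁻¹' (U : Set Γ)) ∩
          {x | hank (numEig (ρ (γ₀ q)).val) (ρ x).val = 0} := by
      ext x
      simp only [Set.mem_setOf_eq, Set.mem_inter_iff, Set.mem_preimage, SetLike.mem_coe]
      rw [← QuotientGroup.eq, hγ₀]
      exact and_congr_left fun _ => eq_comm
    rw [h2]
    exact (hUcl.preimage (continuous_const.mul continuous_id)).inter
      (isClosed_singleton.preimage (continuous_of_mem ρ hρ' (hank_mem ρ _)))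
  · intro x hx τ
    rw [Set.mem_setOf_eq] at hx ⊢
    rw [hnc]
    exact hx.trans_le (hmx x τ)
  · refine measure_mono_null (t := ⋃ q : Γ ⧸ U, {x : Γ | (x : Γ ⧸ U) = q ∧
      hank (numEig (ρ (γ₀ q)).val) (ρ x).val = 0}) ?_ ?_
    · intro x hx
      exact Set.mem_iUnion.2 ⟨(x : Γ ⧸ U), rfl, (hmem x).2 hx⟩
    · rw [measure_iUnion_null_iff]
      intro q
      exact null_coset μ ρ hρ' hUo hUc q (γ₀ q) (hγ₀ q)
        (fun x => hank (numEig (ρ (γ₀ q)).val) (ρ x).val) (hank_mem ρ _) (hank_ne_zero rfl)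
  · intro x hx
    rw [Set.mem_setOf_eq, not_lt] at hx
    refine hc Γ F n ρ hS U hUn hUfi x fun u hu => ?_
    have h2 : ((x * u : Γ) : Γ ⧸ U) = (x : Γ ⧸ U) := QuotientGroup.mk_mul_of_mem _ hu
    exact (hle _ _ h2).trans hx

end Pool.Agent.NH36.Sd
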