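import Pool.Agent.NH36.Sd.Defs

/-!
# Gram determinants of the trace form
-/

set_option autoImplicit false

open Matrix Polynomial Pool.Agent.NH36.Fs

namespace Pool.Agent.NH36.Sd

namespace Gram

/-- The trace of a polynomial in a matrix over an algebraically closed field. -/
theorem trace_aeval {n : ℕ} {K : Type} [Field K] [IsAlgClosed K] [DecidableEq K]
    (M : Matrix (Fin n) (Fin n) K) (p : K[X]) :
    (aeval M p).trace = ∑ a ∈ M.charpoly.roots.toFinset, (M.charpoly.roots.count a : K) * p.eval a := by
  induction p using Polynomial.induction_on' with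
  | add p q hp hq =>
    rw [map_add, Matrix.trace_add, hp, hq, ← Finset.sum_add_distrib]
    refine Finset.sum_congr rfl fun a _ => ?_
    rw [eval_add, mul_add]
  | monomial k c =>
    rw [aeval_monomial, ← Algebra.smul_def, Matrix.trace_smul, trace_pow,
      Finset.sum_multiset_map_count, Finset.smul_sum]
    refine Finset.sum_congr rfl fun a _ => ?_
    rw [nsmul_eq_mul, smul_eq_mul, eval_monomial]
    ring

theorem trace_map {F : Type} [Field F] {n : ℕ} (B : Matrix (Fin n) (Fin n) F) (p : F[X]) :
    algebraMap F (AlgebraicClosure F) (aeval B p).trace =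
      (aeval (B.map (algebraMap F (AlgebraicClosure F)))
        (p.map (algebraMap F (AlgebraicClosure F)))).trace := by
  rw [aeval_map_algebraMap]
  have h5 : B.map (algebraMap F (AlgebraicClosure F)) =
      (Algebra.ofId F (AlgebraicClosure F)).mapMatrix B := rfl
  rw [h5, aeval_algHom_apply]
  exact AddMonoidHom.map_trace (algebraMap F (AlgebraicClosure F)).toAddMonoidHom _

end Gram

theorem t_gram : S_gram := by
  intro F _ _ n r B hB f g
  classical
  apply (algebraMap F (AlgebraicClosure F)).injective
  rw [map_zero, RingHom.map_det]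
  rw [numEig_eq] at hB
  set R := (B.map (algebraMap F (AlgebraicClosure F))).charpoly.roots with hR
  rw [← Matrix.exists_mulVec_eq_zero_iff]
  -- a vector orthogonal to the values of the `g j`
  let T : (Fin (r + 1) → AlgebraicClosure F) →ₗ[AlgebraicClosure F]
      (R.toFinset → AlgebraicClosure F) :=
    { toFun := fun v a => ∑ j, ((g j).map (algebraMap F (AlgebraicClosure F))).eval a.1 * v j
      map_add' := fun v w => by
        funext a
        simp only [Pi.add_apply, mul_add, Finset.sum_add_distrib]
      map_smul' := fun c v => by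
        funext a
        simp only [Pi.smul_apply, smul_eq_mul, RingHom.id_apply, Finset.mul_sum]
        refine Finset.sum_congr rfl fun j _ => ?_
        ring }
  have hker : LinearMap.ker T ≠ ⊥ := by
    apply LinearMap.ker_ne_bot_of_finrank_lt
    rw [Module.finrank_pi, Module.finrank_pi, Fintype.card_coe, Fintype.card_fin]
    omega
  obtain ⟨v, hv, hv0⟩ := Submodule.exists_mem_ne_zero_of_ne_bot hker
  refine ⟨v, hv0, ?_⟩
  rw [LinearMap.mem_ker] at hv
  have hva : ∀ a ∈ R.toFinset,
      ∑ j, ((g j).map (algebraMap F (AlgebraicClosure F))).eval a * v j = 0 := by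
    intro a ha
    exact congrFun hv ⟨a, ha⟩
  funext i
  rw [Matrix.mulVec, dotProduct, Pi.zero_apply]
  have hent : ∀ j, (RingHom.mapMatrix (algebraMap F (AlgebraicClosure F)))
      (Matrix.of fun i j => (aeval B (f i * g j)).trace) i j =
      ∑ a ∈ R.toFinset, (R.count a : AlgebraicClosure F) *
        (((f i).map (algebraMap F (AlgebraicClosure F))).eval a *
          ((g j).map (algebraMap F (AlgebraicClosure F))).eval a) := by
    intro j
    rw [RingHom.mapMatrix_apply, Matrix.map_apply, Matrix.of_apply, Gram.trace_map,
      Gram.trace_aeval]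
    refine Finset.sum_congr rfl fun a _ => ?_
    rw [Polynomial.map_mul, eval_mul]
  rw [Finset.sum_congr rfl fun j _ => by rw [hent j, Finset.sum_mul]]
  rw [Finset.sum_comm]
  refine Finset.sum_eq_zero fun a ha => ?_
  have h4 : ∀ j, (R.count a : AlgebraicClosure F) *
        (((f i).map (algebraMap F (AlgebraicClosure F))).eval a *
          ((g j).map (algebraMap F (AlgebraicClosure F))).eval a) * v j =
      (R.count a : AlgebraicClosure F) * ((f i).map (algebraMap F (AlgebraicClosure F))).eval a *
        (((g j).map (algebraMap F (AlgebraicClosure F))).eval a * v j) := fun j => by ring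
  rw [Finset.sum_congr rfl fun j _ => h4 j, ← Finset.mul_sum, hva a ha, mul_zero]

end Pool.Agent.NH36.Sd
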