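import Pool.Agent.NH36.Sd.Defs

/-!
# Gram determinants of the trace form

If a matrix has at most `r` distinct eigenvalues, then the Gram determinants of size `r + 1` of the
bilinear form `Tr ((f g) (B))` on the polynomials are zero.
-/

set_option autoImplicit false

open Matrix Polynomial Pool.Agent.NH36.Fs

namespace Pool.Agent.NH36.Sd

namespace GramAux

variable {E : Type} [Field E] {n : ℕ}

/-- The trace of a polynomial in a matrix is the sum of the values at the eigenvalues. -/
lemma trace_aeval [IsAlgClosed E] (A : Matrix (Fin n) (Fin n) E) (p : E[X]) :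
    (aeval A p).trace = (A.charpoly.roots.map fun a => p.eval a).sum := by
  induction p using Polynomial.induction_on' with
  | add p q hp hq =>
    rw [map_add, Matrix.trace_add, hp, hq]
    simp only [eval_add, Multiset.sum_map_add]
  | monomial k c =>
    rw [aeval_monomial, ← Algebra.smul_def, Matrix.trace_smul, trace_pow]
    simp only [eval_monomial, Multiset.sum_map_mul_left, smul_eq_mul]

lemma det_zero {m : ℕ} (S : Finset E) (hS : S.card ≤ m) (w : E → E)
    (f g : Fin (m + 1) → E → E) :
    (Matrix.of fun i j => ∑ a ∈ S, w a * (f i a * g j a)).det = 0 := by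
  classical
  rw [← Matrix.exists_mulVec_eq_zero_iff]
  -- the columns `g j` restricted to `S` are dependent
  have h : ¬ LinearIndependent E (fun j : Fin (m + 1) => fun a : S => g j a) := by
    intro hli
    have := hli.fintype_card_le_finrank
    simp only [Fintype.card_fin, Module.finrank_fintype_fun_eq_card, Fintype.card_coe] at this
    omega
  rw [Fintype.not_linearIndependent_iff] at h
  obtain ⟨c, hc, i, hi⟩ := h
  refine ⟨c, fun h0 => hi (congrFun h0 i), ?_⟩
  ext i
  rw [Matrix.mulVec, dotProduct, Pi.zero_apply]
  simp only [Matrix.of_apply, Finset.sum_mul]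
  rw [Finset.sum_comm]
  refine Finset.sum_eq_zero fun a ha => ?_
  have h1 := congrFun hc ⟨a, ha⟩
  simp only [Finset.sum_apply, Pi.smul_apply, smul_eq_mul, Pi.zero_apply] at h1
  calc ∑ x, w a * (f i a * g x a) * c x = w a * f i a * ∑ x, c x * g x a := by
        rw [Finset.mul_sum]
        exact Finset.sum_congr rfl fun x _ => by ring
    _ = 0 := by rw [h1, mul_zero]

end GramAux

open GramAux in
/-- The Gram determinants vanish. -/
theorem grm : S_gram := by
  intro F _ _ n r B hB f g
  classical
  apply (algebraMap F (AlgebraicClosure F)).injective
  rw [map_zero, RingHom.map_det]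
  rw [numEig_eq] at hB
  set B' := B.map (algebraMap F (AlgebraicClosure F)) with hB'
  have key : (algebraMap F (AlgebraicClosure F)).mapMatrix
      (Matrix.of fun i j => (aeval B (f i * g j)).trace) =
      Matrix.of fun i j => ∑ a ∈ B'.charpoly.roots.toFinset,
        (B'.charpoly.roots.count a : AlgebraicClosure F) *
          (((f i).map (algebraMap F (AlgebraicClosure F))).eval a *
            ((g j).map (algebraMap F (AlgebraicClosure F))).eval a) := by
    ext i j
    simp only [RingHom.mapMatrix_apply, Matrix.map_apply, Matrix.of_apply]
    have h1 : (algebraMap F (AlgebraicClosure F)) (aeval B (f i * g j)).trace =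
        (aeval B' ((f i * g j).map (algebraMap F (AlgebraicClosure F)))).trace := by
      have h2 : (aeval B' ((f i * g j).map (algebraMap F (AlgebraicClosure F)))) =
          (aeval B (f i * g j)).map (algebraMap F (AlgebraicClosure F)) := by
        rw [aeval_map_algebraMap, hB']
        have := Polynomial.aeval_algHom_apply
          ((Algebra.ofId F (AlgebraicClosure F)).mapMatrix (m := Fin n)) B (f i * g j)
        exact this
      rw [h2]
      exact AddMonoidHom.map_trace (algebraMap F (AlgebraicClosure F)).toAddMonoidHom _
    rw [h1, trace_aeval, Finset.sum_multiset_map_count]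
    refine Finset.sum_congr rfl fun a _ => ?_
    rw [nsmul_eq_mul, Polynomial.map_mul, eval_mul]
  rw [key]
  exact det_zero _ hB (fun a => (B'.charpoly.roots.count a : AlgebraicClosure F))
    (fun i a => ((f i).map (algebraMap F (AlgebraicClosure F))).eval a)
    (fun j a => ((g j).map (algebraMap F (AlgebraicClosure F))).eval a)

end Pool.Agent.NH36.Sd
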