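import Pool.Agent.NH36.Sd.Defs

/-!
# A nilpotent matrix whose conjugates span an isotropic Lie algebra is zero
-/

set_option autoImplicit false
set_option linter.unusedSectionVars false

open Matrix Polynomial Pool.Agent.NH36.Fs

namespace Pool.Agent.NH36.Sd

namespace LieP

attribute [local instance 100] LieRing.ofAssociativeRing

section abs

variable {F : Type} [Field F] [CharZero F] {L V : Type} [LieRing L] [LieAlgebra F L]
  [AddCommGroup V] [Module F V] [LieRingModule L V] [LieModule F L V] [FiniteDimensional F V]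

/-- the vectors of `V'` killed by the derived algebra -/
def kd (V' : LieSubmodule F L V) : LieSubmodule F L V where
  carrier := {v | v ∈ V' ∧ ∀ d ∈ LieAlgebra.derivedSeries F L 1, ⁅d, v⁆ = 0}
  add_mem' := by
    rintro a b ⟨ha, ha'⟩ ⟨hb, hb'⟩
    exact ⟨add_mem ha hb, fun d hd => by rw [lie_add, ha' d hd, hb' d hd, add_zero]⟩
  zero_mem' := ⟨zero_mem _, fun d _ => lie_zero d⟩
  smul_mem' := by
    rintro c a ⟨ha, ha'⟩
    exact ⟨V'.smul_mem c ha, fun d hd => by rw [lie_smul, ha' d hd, smul_zero]⟩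
  lie_mem := by
    rintro x v ⟨hv, hv'⟩
    refine ⟨V'.lie_mem hv, fun d hd => ?_⟩
    have h1 : ⁅d, x⁆ ∈ LieAlgebra.derivedSeries F L 1 := lie_mem_left F L _ d x hd
    rw [leibniz_lie, hv' _ h1, hv' d hd, lie_zero, add_zero]

theorem mem_kd {V' : LieSubmodule F L V} {v : V} :
    v ∈ kd V' ↔ v ∈ V' ∧ ∀ d ∈ LieAlgebra.derivedSeries F L 1, ⁅d, v⁆ = 0 := Iff.rfl

theorem nil_res {L' : Type} [LieRing L'] [LieAlgebra F L'] [LieRingModule L' V] [LieModule F L' V]
    (V' : LieSubmodule F L' V) (x : L') (h : IsNilpotent (LieModule.toEnd F L' V x)) :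
    IsNilpotent (LieModule.toEnd F L' V' x) := by
  obtain ⟨k, hk⟩ := h
  refine ⟨k, ?_⟩
  have h1 : ∀ (m : ℕ) (v : V'), (((LieModule.toEnd F L' V' x) ^ m) v : V) =
      ((LieModule.toEnd F L' V x) ^ m) (v : V) := by
    intro m
    induction m with
    | zero => intro v; rfl
    | succ m ih =>
      intro v
      rw [pow_succ, pow_succ, Module.End.mul_apply, Module.End.mul_apply, ih]
      rfl
  ext v
  rw [h1, hk]
  rfl

theorem kd_ne (h : LieModule.traceForm F L V = 0) {V' : LieSubmodule F L V} (hV : V' ≠ ⊥) :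
    kd V' ≠ ⊥ := by
  have h1 := LieModule.isNilpotent_derivedSeries_of_traceForm_eq_zero h
  rw [LieModule.isNilpotent_iff_forall' (R := F)] at h1
  have h2 : LieModule.IsNilpotent (LieAlgebra.derivedSeries F L 1) V' := by
    rw [LieModule.isNilpotent_iff_forall' (R := F)]
    rintro ⟨x, hx⟩
    have h3 : IsNilpotent (LieModule.toEnd F L V x) := h1 ⟨x, hx⟩
    exact nil_res V' x h3
  have h4 : Nontrivial V' := (LieSubmodule.nontrivial_iff_ne_bot F L V).2 hV
  have h5 := LieModule.nontrivial_max_triv_of_isNilpotent F (LieAlgebra.derivedSeries F L 1) V'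
  obtain ⟨v, hv⟩ := exists_ne (0 : LieModule.maxTrivSubmodule F (LieAlgebra.derivedSeries F L 1) V')
  intro hbot
  apply hv
  have h6 : ((v : V') : V) ∈ kd V' := by
    refine ⟨v.1.2, fun d hd => ?_⟩
    have h7 := (LieModule.mem_maxTrivSubmodule F _ V' v.1).1 v.2 ⟨d, hd⟩
    exact congrArg Subtype.val h7
  rw [hbot] at h6
  exact Subtype.ext (Subtype.ext ((LieSubmodule.mem_bot _).1 h6))

theorem exists_killed (h : LieModule.traceForm F L V = 0) (S : Set L)
    (hS : Submodule.span F S = ⊤) (hn : ∀ s ∈ S, IsNilpotent (LieModule.toEnd F L V s))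
    {V' : LieSubmodule F L V} (hV : V' ≠ ⊥) : ∃ v ∈ V', v ≠ 0 ∧ ∀ x : L, ⁅x, v⁆ = 0 := by
  have h1 := kd_ne h hV
  have hcomm : ∀ x y : L, Commute (LieModule.toEnd F L (kd V') x) (LieModule.toEnd F L (kd V') y) := by
    intro x y
    rw [commute_iff_lie_eq, ← LieHom.map_lie]
    ext v
    have h2 : ⁅x, y⁆ ∈ LieAlgebra.derivedSeries F L 1 := by
      rw [LieAlgebra.derivedSeries_def, LieAlgebra.derivedSeriesOfIdeal_succ,
        LieAlgebra.derivedSeriesOfIdeal_zero]
      exact LieSubmodule.lie_mem_lie (LieSubmodule.mem_top x) (LieSubmodule.mem_top y)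
    exact v.2.2 _ h2
  have hnil : ∀ x : L, IsNilpotent (LieModule.toEnd F L (kd V') x) := by
    intro x
    have hx : x ∈ Submodule.span F S := by rw [hS]; exact Submodule.mem_top
    induction hx using Submodule.span_induction with
    | mem s hs => exact nil_res _ _ (hn s hs)
    | zero => rw [map_zero]; exact IsNilpotent.zero
    | add a b _ _ ha hb => rw [map_add]; exact (hcomm a b).isNilpotent_add ha hb
    | smul c a _ ha => rw [map_smul]; exact ha.smul c
  have h2 : LieModule.IsNilpotent L (kd V') := by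
    rw [LieModule.isNilpotent_iff_forall' (R := F)]
    exact hnil
  have h4 : Nontrivial (kd V') := (LieSubmodule.nontrivial_iff_ne_bot F L V).2 h1
  have h5 := LieModule.nontrivial_max_triv_of_isNilpotent F L (kd V')
  obtain ⟨v, hv⟩ := exists_ne (0 : LieModule.maxTrivSubmodule F L (kd V'))
  refine ⟨v.1.1, v.1.2.1, fun h0 => hv (Subtype.ext (Subtype.ext h0)), fun x => ?_⟩
  have h7 := (LieModule.mem_maxTrivSubmodule F _ (kd V') v.1).1 v.2 x
  exact congrArg Subtype.val h7

end abs

section mat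

variable {F : Type} [Field F] {n : ℕ}

theorem tr_zero {G : Subgroup (GL (Fin n) F)} {N : Matrix (Fin n) (Fin n) F}
    (h : ∀ g ∈ G, (N * (g.val * N * (g⁻¹).val)).trace = 0)
    {x y : Matrix (Fin n) (Fin n) F} (hx : x ∈ conjSpan (G : Set (GL (Fin n) F)) N)
    (hy : y ∈ conjSpan (G : Set (GL (Fin n) F)) N) : (x * y).trace = 0 := by
  unfold conjSpan at hx hy
  induction hx using Submodule.span_induction with
  | mem a ha =>
    obtain ⟨g, hg, rfl⟩ := ha
    induction hy using Submodule.span_induction with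
    | mem b hb =>
      obtain ⟨k, hk, rfl⟩ := hb
      have h1 := h (g⁻¹ * k) (G.mul_mem (G.inv_mem hg) hk)
      rw [_root_.mul_inv_rev, inv_inv, Units.val_mul, Units.val_mul] at h1
      have e : (g.val * N * (g⁻¹).val) * (k.val * N * (k⁻¹).val) =
          g.val * (N * (g⁻¹).val * (k.val * N * (k⁻¹).val)) := by
        simp only [mul_assoc]
      have e2 : N * (((g⁻¹).val * k.val) * N * ((k⁻¹).val * g.val)) =
          (N * (g⁻¹).val * (k.val * N * (k⁻¹).val)) * g.val := by
        simp only [mul_assoc]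
      rw [e2] at h1
      show ((g.val * N * (g⁻¹).val) * (k.val * N * (k⁻¹).val)).trace = 0
      rw [e, Matrix.trace_mul_comm, h1]
    | zero => rw [mul_zero, Matrix.trace_zero]
    | add a b _ _ ha hb => rw [mul_add, Matrix.trace_add, ha, hb, add_zero]
    | smul c a _ ha => rw [mul_smul_comm, Matrix.trace_smul, ha, smul_zero]
  | zero => rw [zero_mul, Matrix.trace_zero]
  | add a b _ _ ha hb => rw [add_mul, Matrix.trace_add, ha, hb, add_zero]
  | smul c a _ ha => rw [smul_mul_assoc, Matrix.trace_smul, ha, smul_zero]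

/-- the vectors killed by all conjugates -/
def ker (G : Subgroup (GL (Fin n) F)) (N : Matrix (Fin n) (Fin n) F) :
    Submodule F (Fin n → F) where
  carrier := {v | ∀ g ∈ G, (g.val * N * (g⁻¹).val) *ᵥ v = 0}
  add_mem' := by
    intro a b ha hb g hg
    rw [Matrix.mulVec_add, ha g hg, hb g hg, add_zero]
  zero_mem' := fun g _ => Matrix.mulVec_zero _
  smul_mem' := by
    intro c a ha g hg
    rw [Matrix.mulVec_smul, ha g hg, smul_zero]

theorem ker_stab (G : Subgroup (GL (Fin n) F)) (N : Matrix (Fin n) (Fin n) F) :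
    StabBy (Units.val '' (G : Set (GL (Fin n) F))) (ker G N) := by
  rintro _ ⟨k, hk, rfl⟩ v hv g hg
  have h1 := hv (k⁻¹ * g) (G.mul_mem (G.inv_mem hk) hg)
  rw [_root_.mul_inv_rev, inv_inv, Units.val_mul, Units.val_mul] at h1
  have h2 : k.val *ᵥ (((k⁻¹).val * g.val * N * ((g⁻¹).val * k.val)) *ᵥ v) = 0 := by
    rw [h1, Matrix.mulVec_zero]
  rw [Matrix.mulVec_mulVec] at h2 ⊢
  have e : k.val * ((k⁻¹).val * g.val * N * ((g⁻¹).val * k.val)) =
      (k.val * (k⁻¹).val) * (g.val * N * (g⁻¹).val * k.val) := by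
    simp only [mul_assoc]
  rw [e, Units.mul_inv, one_mul] at h2
  exact h2

/-- the Lie algebra spanned by the conjugates, as endomorphisms -/
def lieW (G : Subgroup (GL (Fin n) F)) (N : Matrix (Fin n) (Fin n) F)
    (h : ∀ x ∈ conjSpan (G : Set (GL (Fin n) F)) N, ∀ y ∈ conjSpan (G : Set (GL (Fin n) F)) N,
      x * y - y * x ∈ conjSpan (G : Set (GL (Fin n) F)) N) :
    LieSubalgebra F (Module.End F (Fin n → F)) :=
  { (conjSpan (G : Set (GL (Fin n) F)) N).map (Matrix.toLin' : _ ≃ₗ[F] _).toLinearMap with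
    lie_mem' := by
      rintro _ _ ⟨x, hx, rfl⟩ ⟨y, hy, rfl⟩
      refine ⟨_, h x hx y hy, ?_⟩
      show Matrix.toLin' (x * y - y * x) = Matrix.toLin' x * Matrix.toLin' y -
        Matrix.toLin' y * Matrix.toLin' x
      rw [map_sub, Matrix.toLin'_mul, Matrix.toLin'_mul]
      rfl }

theorem mem_lieW {G : Subgroup (GL (Fin n) F)} {N : Matrix (Fin n) (Fin n) F}
    {h : ∀ x ∈ conjSpan (G : Set (GL (Fin n) F)) N, ∀ y ∈ conjSpan (G : Set (GL (Fin n) F)) N,
      x * y - y * x ∈ conjSpan (G : Set (GL (Fin n) F)) N} {f : Module.End F (Fin n → F)} :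
    f ∈ lieW G N h ↔ ∃ x ∈ conjSpan (G : Set (GL (Fin n) F)) N, Matrix.toLin' x = f := Iff.rfl

end mat

end LieP

attribute [local instance 100] LieRing.ofAssociativeRing

open LieP in
theorem t_lie : S_lie := by
  intro F _ _ n G N hss hnil hspan htr hlie
  obtain ⟨K', hK', hcompl⟩ := hss (ker G N) (ker_stab G N)
  -- `K'` is stable under the elements of the span
  have hNK : ∀ y ∈ Submodule.span F (Units.val '' (G : Set (GL (Fin n) F))), ∀ w ∈ K', y *ᵥ w ∈ K' := by
    intro y hy
    induction hy using Submodule.span_induction with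
    | mem a ha => exact hK' a ha
    | zero => intro w _; rw [Matrix.zero_mulVec]; exact K'.zero_mem
    | add a b _ _ ha hb => intro w hw; rw [Matrix.add_mulVec]; exact K'.add_mem (ha w hw) (hb w hw)
    | smul c a _ ha => intro w hw; rw [Matrix.smul_mulVec]; exact K'.smul_mem c (ha w hw)
  have hWK : ∀ y ∈ conjSpan (G : Set (GL (Fin n) F)) N, ∀ w ∈ K', y *ᵥ w ∈ K' := by
    intro y hy
    unfold conjSpan at hy
    induction hy using Submodule.span_induction with
    | mem a ha =>
      obtain ⟨g, hg, rfl⟩ := ha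
      intro w hw
      show (g.val * N * (g⁻¹).val) *ᵥ w ∈ K'
      rw [← Matrix.mulVec_mulVec, ← Matrix.mulVec_mulVec]
      exact hK' _ ⟨g, hg, rfl⟩ _ (hNK N hspan _ (hK' _ ⟨g⁻¹, G.inv_mem hg, rfl⟩ w hw))
    | zero => intro w _; rw [Matrix.zero_mulVec]; exact K'.zero_mem
    | add a b _ _ ha hb => intro w hw; rw [Matrix.add_mulVec]; exact K'.add_mem (ha w hw) (hb w hw)
    | smul c a _ ha => intro w hw; rw [Matrix.smul_mulVec]; exact K'.smul_mem c (ha w hw)
  let L := lieW G N hlie
  let V' : LieSubmodule F L (Fin n → F) :=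
    { K' with
      lie_mem := by
        rintro ⟨f, hf⟩ w hw
        obtain ⟨x, hx, rfl⟩ := mem_lieW.1 hf
        exact hWK x hx w hw }
  have htf : LieModule.traceForm F L (Fin n → F) = 0 := by
    ext ⟨f, hf⟩ ⟨g, hg⟩
    obtain ⟨x, hx, rfl⟩ := mem_lieW.1 hf
    obtain ⟨y, hy, rfl⟩ := mem_lieW.1 hg
    rw [LieModule.traceForm_apply_apply]
    show LinearMap.trace F (Fin n → F) (Matrix.toLin' x ∘ₗ Matrix.toLin' y) = 0
    rw [← Matrix.toLin'_mul, Matrix.trace_toLin'_eq]
    exact tr_zero htr hx hy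
  let S : Set L := {f | ∃ g ∈ G, Matrix.toLin' (g.val * N * (g⁻¹).val) = f.1}
  have hS : Submodule.span F S = ⊤ := by
    rw [eq_top_iff]
    rintro ⟨f, hf⟩ -
    obtain ⟨x, hx, rfl⟩ := mem_lieW.1 hf
    have key : ∀ x (hx : x ∈ conjSpan (G : Set (GL (Fin n) F)) N),
        (⟨Matrix.toLin' x, mem_lieW.2 ⟨x, hx, rfl⟩⟩ : L) ∈ Submodule.span F S := by
      intro x hx
      unfold conjSpan at hx
      induction hx using Submodule.span_induction with
      | mem a ha =>
        obtain ⟨g, hg, rfl⟩ := ha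
        exact Submodule.subset_span ⟨g, hg, rfl⟩
      | zero =>
        have e : (⟨Matrix.toLin' (0 : Matrix (Fin n) (Fin n) F), mem_lieW.2 ⟨0, Submodule.zero_mem _, rfl⟩⟩ : L) = 0 :=
          Subtype.ext (map_zero _)
        rw [e]
        exact Submodule.zero_mem _
      | add a b ha' hb' ha hb =>
        have e : (⟨Matrix.toLin' (a + b), mem_lieW.2 ⟨a + b, Submodule.add_mem _ ha' hb', rfl⟩⟩ : L) =
            ⟨Matrix.toLin' a, mem_lieW.2 ⟨a, ha', rfl⟩⟩ + ⟨Matrix.toLin' b, mem_lieW.2 ⟨b, hb', rfl⟩⟩ :=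
          Subtype.ext (map_add _ _ _)
        rw [e]
        exact Submodule.add_mem _ ha hb
      | smul c a ha' ha =>
        have e : (⟨Matrix.toLin' (c • a), mem_lieW.2 ⟨c • a, Submodule.smul_mem _ c ha', rfl⟩⟩ : L) =
            c • ⟨Matrix.toLin' a, mem_lieW.2 ⟨a, ha', rfl⟩⟩ :=
          Subtype.ext (map_smul _ _ _)
        rw [e]
        exact Submodule.smul_mem _ c ha
    exact key x hx
  have hn : ∀ s ∈ S, IsNilpotent (LieModule.toEnd F L (Fin n → F) s) := by
    rintro ⟨f, hf⟩ ⟨g, hg, hgf⟩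
    have e : LieModule.toEnd F L (Fin n → F) ⟨f, hf⟩ = f := rfl
    have hgf' : Matrix.toLin' (g.val * N * (g⁻¹).val) = f := hgf
    rw [e, ← hgf']
    obtain ⟨k, hk⟩ := hnil
    refine ⟨k, ?_⟩
    have h1 : ∀ m : ℕ, (g.val * N * (g⁻¹).val) ^ m = g.val * N ^ m * (g⁻¹).val := by
      intro m
      induction m with
      | zero => rw [pow_zero, pow_zero, mul_one, Units.mul_inv]
      | succ m ih =>
        rw [pow_succ, ih, pow_succ]
        have e : g.val * N ^ m * (g⁻¹).val * (g.val * N * (g⁻¹).val) =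
            g.val * N ^ m * ((g⁻¹).val * g.val) * (N * (g⁻¹).val) := by
          simp only [mul_assoc]
        rw [e, Units.inv_mul, mul_one]
        simp only [mul_assoc]
    rw [← Matrix.toLin'_pow, h1, hk, mul_zero, zero_mul, map_zero]
  have hK0 : K' = ⊥ := by
    by_contra hne
    have hV : V' ≠ ⊥ := by
      intro h0
      apply hne
      rw [eq_bot_iff]
      intro w hw
      have h1 : w ∈ V' := hw
      rw [h0] at h1
      exact (LieSubmodule.mem_bot w).1 h1
    obtain ⟨v, hv, hv0, hkill⟩ := exists_killed htf S hS hn hV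
    apply hv0
    have h1 : v ∈ ker G N := by
      intro g hg
      exact hkill ⟨Matrix.toLin' (g.val * N * (g⁻¹).val), mem_lieW.2
        ⟨_, Submodule.subset_span ⟨g, hg, rfl⟩, rfl⟩⟩
    have h2 : v ∈ ker G N ⊓ K' := ⟨h1, hv⟩
    rw [hcompl.inf_eq_bot] at h2
    exact (Submodule.mem_bot F).1 h2
  have hKt : ker G N = ⊤ := by
    have h1 := hcompl.sup_eq_top
    rw [hK0, sup_bot_eq] at h1
    exact h1
  have h2 : ∀ v, N *ᵥ v = 0 := by
    intro v
    have h3 : v ∈ ker G N := by rw [hKt]; exact Submodule.mem_top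
    have h4 := h3 1 G.one_mem
    rw [inv_one, Units.val_one, one_mul, mul_one] at h4
    exact h4
  ext i j
  have h5 := congrFun (h2 (Pi.single j 1)) i
  rw [Matrix.mulVec_single_one] at h5
  exact h5

end Pool.Agent.NH36.Sd
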