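import Pool.Agent.NH36.Sd.Defs2
import Pool.Agent.NH36.Fs.Main

/-!
# Semisimple Frobenius elements: density one
-/

set_option autoImplicit false

open Matrix Polynomial MeasureTheory NumberField Filter Topology IsDedekindDomain
  Pool.Agent.W401.Cheb Pool.Agent.NH36.Fs

namespace Pool.Agent.NH36.Sd

variable {K : Type} [Field K] [NumberField K]

/-- The places at which the Frobenius elements of a semisimple representation are not semisimple
have density zero. -/
theorem null_nss (hc : S_core) {F : Type} [Field F] [CharZero F] [TopologicalSpace F]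
    [IsTopologicalRing F] [T1Space F] {n : ℕ} (ρ : GK K →* GL (Fin n) F)
    (hρ : ∀ i j, Continuous fun γ => (ρ γ).val i j) (hss : SSBy (im ρ)) :
    Tendsto (dens fun v : HeightOneSpectrum (𝓞 K) => ∃ σ, IsFrob v σ ∧ ¬ SS (ρ σ).val) atTop
      (𝓝 0) := by
  obtain ⟨U, hUn, hUo, hUc⟩ := exists_conn ρ
  have hfin : Finite (GK K ⧸ U) := U.quotient_finite_of_isOpen hUo
  have hfi : U.FiniteIndex := Subgroup.finiteIndex_of_finite_quotient
  refine squeeze_zero_dens ?_ (null_small ρ hρ U hUo hUc)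
  rintro v ⟨σ, hv, hs⟩
  refine ⟨σ, ?_, hv⟩
  by_contra hlt
  apply hs
  refine hc (GK K) F n ρ hss U hUn hfi σ fun u hu => ?_
  exact (le_rk ρ U σ hu).trans (not_lt.1 hlt)

/-- The density of the set of all places is one. -/
theorem dens_true : Tendsto (dens fun _ : HeightOneSpectrum (𝓞 K) => True) atTop (𝓝 1) := by
  have h := Pool.Agent.Y142.chebK K ⊤ (by simp) Set.univ (fun _ _ _ => Set.mem_univ _)
    (fun _ _ _ _ => Set.mem_univ _)
  have h1 : (fun v : HeightOneSpectrum (𝓞 K) => ∃ σ ∈ (Set.univ : Set (GK K)), IsFrob v σ) =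
      fun _ => True := by
    funext v
    obtain ⟨σ, hσ⟩ := (Pool.Agent.W401.Frob.main K).1 v
    exact eq_true ⟨σ, Set.mem_univ _, hσ⟩
  rw [h1] at h
  have h2 : (((QuotientGroup.mk : GK K → GK K ⧸ (⊤ : Subgroup (GK K))) '' Set.univ).ncard : ℝ) /
      (Nat.card (GK K ⧸ (⊤ : Subgroup (GK K))) : ℝ) = 1 := by
    have h3 : ((QuotientGroup.mk : GK K → GK K ⧸ (⊤ : Subgroup (GK K))) '' Set.univ) =
        Set.univ := by
      rw [Set.image_univ]
      exact Set.range_eq_univ.2 QuotientGroup.mk_surjective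
    rw [h3, Set.ncard_univ]
    have h4 : Nat.card (GK K ⧸ (⊤ : Subgroup (GK K))) = 1 := by
      change (⊤ : Subgroup (GK K)).index = 1
      exact Subgroup.index_top
    rw [h4]
    norm_num
  rwa [h2] at h

/-- A finite union of sets of places of density zero has density zero. -/
theorem dens_iUnion {r : ℕ} (P : Fin r → HeightOneSpectrum (𝓞 K) → Prop)
    (h : ∀ j, Tendsto (dens (P j)) atTop (𝓝 0)) :
    Tendsto (dens fun v => ∃ j, P j v) atTop (𝓝 0) := by
  induction r with
  | zero =>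
    refine squeeze_zero_dens (Q := fun _ => False) ?_ ?_
    · rintro v ⟨j, -⟩
      exact j.elim0
    · exact Pool.Agent.R401.Sup2.dens_fin (fun _ => False) (by simp)
  | succ r ih =>
    have h1 := ih (fun j => P j.succ) fun j => h _
    have h2 := (h 0).add h1
    rw [add_zero] at h2
    refine squeeze_zero (fun N => by unfold dens; positivity) (fun N => ?_) h2
    refine le_trans (Pool.Agent.R401.Eng.dens_le (fun v => ?_) N)
      (Pool.Agent.R401.Sup2.card_or (P 0) (fun v => ∃ j : Fin r, P j.succ v) N)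
    rintro ⟨j, hj⟩
    rcases Fin.eq_zero_or_eq_succ j with rfl | ⟨i, rfl⟩
    · exact Or.inl hj
    · exact Or.inr ⟨i, hj⟩

/-- **Density one.** -/
theorem one (hc : S_core) (hb : S_blk) {F : Type} [Field F] [CharZero F] [TopologicalSpace F]
    [IsTopologicalRing F] [T1Space F] {r : ℕ} (m : Fin r → ℕ)
    (ρ : GK K →* GL (Σ j, Fin (m j)) F) (hρ : Continuous ρ)
    (B : Set (HeightOneSpectrum (𝓞 K))) (hB : B.Finite)
    (φ : ∀ j, GK K →* GL (Fin (m j)) F)
    (hφ : ∀ j σ, (φ j σ).val = blk (ρ σ).val j)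
    (htri : ∀ σ, (ρ σ).val.BlockTriangular Sigma.fst) (hss : ∀ j, SSBy (im (φ j)))
    (hcop : ∀ v ∉ B, ∀ σ, IsFrob v σ → ∀ i j, i ≠ j →
      IsCoprime (φ i σ).val.charpoly (φ j σ).val.charpoly) :
    Tendsto (dens fun v : HeightOneSpectrum (𝓞 K) =>
      v ∉ B ∧ ∀ σ, IsFrob v σ → Module.End.IsSemisimple (Matrix.toLin' (ρ σ).val)) atTop
      (𝓝 1) := by
  have hcont : ∀ j (a b : Fin (m j)), Continuous fun γ => (φ j γ).val a b := by
    intro j a b
    have h1 : (fun γ => (φ j γ).val a b) = fun γ => (ρ γ).val ⟨j, a⟩ ⟨j, b⟩ := by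
      funext γ
      rw [hφ]
      rfl
    rw [h1]
    exact (Units.continuous_val.comp hρ).matrix_elem _ _
  have hnull := dens_iUnion (fun j v => ∃ σ, IsFrob v σ ∧ ¬ SS (φ j σ).val)
    fun j => null_nss hc (φ j) (hcont j) (hss j)
  have hfin := Pool.Agent.R401.Sup2.dens_fin (fun v => v ∈ B) hB
  have hlo := ((dens_true (K := K)).sub hnull).sub hfin
  simp only [sub_zero] at hlo
  refine tendsto_of_tendsto_of_tendsto_of_le_of_le hlo (dens_true (K := K)) ?_ ?_
  · intro N
    have h1 := Pool.Agent.R401.Sup2.card_or (fun v : HeightOneSpectrum (𝓞 K) =>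
      (v ∉ B ∧ ∀ σ, IsFrob v σ → Module.End.IsSemisimple (Matrix.toLin' (ρ σ).val)) ∨
        ∃ j, ∃ σ, IsFrob v σ ∧ ¬ SS (φ j σ).val) (fun v => v ∈ B) N
    have h2 := Pool.Agent.R401.Sup2.card_or (fun v : HeightOneSpectrum (𝓞 K) =>
      v ∉ B ∧ ∀ σ, IsFrob v σ → Module.End.IsSemisimple (Matrix.toLin' (ρ σ).val))
        (fun v => ∃ j, ∃ σ, IsFrob v σ ∧ ¬ SS (φ j σ).val) N
    have h3 : dens (fun _ : HeightOneSpectrum (𝓞 K) => True) N ≤
        dens (fun v : HeightOneSpectrum (𝓞 K) => ((v ∉ B ∧ ∀ σ, IsFrob v σ →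
          Module.End.IsSemisimple (Matrix.toLin' (ρ σ).val)) ∨
            ∃ j, ∃ σ, IsFrob v σ ∧ ¬ SS (φ j σ).val) ∨ v ∈ B) N := by
      refine Pool.Agent.R401.Eng.dens_le (fun v _ => ?_) N
      by_cases hvB : v ∈ B
      · exact Or.inr hvB
      refine Or.inl ?_
      by_cases hj : ∃ j, ∃ σ, IsFrob v σ ∧ ¬ SS (φ j σ).val
      · exact Or.inr hj
      · left
        push Not at hj
        refine ⟨hvB, fun σ hσ => ?_⟩
        refine hb F r m (ρ σ).val (htri σ) (fun j => ?_) fun i j hij => ?_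
        · rw [← hφ]
          exact hj j σ hσ
        · rw [← hφ, ← hφ]
          exact hcop v hvB σ hσ i j hij
    linarith
  · intro N
    exact Pool.Agent.R401.Eng.dens_le (fun v _ => trivial) N

end Pool.Agent.NH36.Sd
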