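import Pool.Agent.NH36.Sd.Defs

/-! First variation of the number of eigenvalues (`S_var`). -/

set_option autoImplicit false

open Matrix Polynomial Pool.Agent.NH36.Fs

namespace Pool.Agent.NH36.Sd

namespace VarP

variable {F : Type} [Field F] {n : ℕ}

lemma dual_add (B C B' C' : Matrix (Fin n) (Fin n) F) :
    dual B C + dual B' C' = dual (B + B') (C + C') := by
  refine Matrix.ext fun i j => ?_
  simp only [dual, Matrix.add_apply, Matrix.of_apply, TrivSqZeroExt.inl_add,
    TrivSqZeroExt.inr_add]
  abel

lemma dual_mul (B C B' C' : Matrix (Fin n) (Fin n) F) :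
    dual B C * dual B' C' = dual (B * B') (B * C' + C * B') := by
  ext i j
  · simp [dual, Matrix.mul_apply, TrivSqZeroExt.fst_sum]
  · simp [dual, Matrix.mul_apply, TrivSqZeroExt.snd_sum, Finset.sum_add_distrib]

lemma dual_algebraMap (a : F) : algebraMap F (Matrix (Fin n) (Fin n) (DualNumber F)) a =
    dual (algebraMap F (Matrix (Fin n) (Fin n) F) a) 0 := by
  refine Matrix.ext fun i j => ?_
  rw [dual, Matrix.of_apply, Matrix.algebraMap_matrix_apply, Matrix.algebraMap_matrix_apply,
    Matrix.zero_apply, TrivSqZeroExt.inr_zero, add_zero]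
  split_ifs with h
  · rfl
  · rw [TrivSqZeroExt.inl_zero]

lemma trace_dual (B C : Matrix (Fin n) (Fin n) F) :
    (dual B C).trace = TrivSqZeroExt.inl B.trace + TrivSqZeroExt.inr C.trace := by
  ext
  · simp [dual, Matrix.trace, TrivSqZeroExt.fst_sum]
  · simp [dual, Matrix.trace, TrivSqZeroExt.snd_sum]

lemma aeval_dual (B C : Matrix (Fin n) (Fin n) F) (p : F[X]) :
    ∃ c : Matrix (Fin n) (Fin n) F, aeval (dual B C) p = dual (aeval B p) c ∧
      ∀ Z, Commute B Z → (c * Z).trace = (aeval B (derivative p) * C * Z).trace := by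
  induction p using Polynomial.induction_on with
  | C a =>
    refine ⟨0, ?_, ?_⟩
    · rw [aeval_C, aeval_C, dual_algebraMap]
    · intro Z _
      simp
  | add p q hp hq =>
    obtain ⟨c, h1, h2⟩ := hp
    obtain ⟨d, h3, h4⟩ := hq
    refine ⟨c + d, ?_, ?_⟩
    · rw [map_add, h1, h3, dual_add, map_add]
    · intro Z hZ
      rw [add_mul, Matrix.trace_add, h2 Z hZ, h4 Z hZ, derivative_add, map_add, add_mul, add_mul,
        Matrix.trace_add]
  | monomial k a hk =>
    obtain ⟨c, h1, h2⟩ := hk
    have h0 : Polynomial.C a * X ^ (k + 1) = Polynomial.C a * X ^ k * X := by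
      rw [pow_succ, ← mul_assoc]
    rw [h0]
    generalize Polynomial.C a * X ^ k = P at h1 h2 ⊢
    refine ⟨aeval B P * C + c * B, ?_, ?_⟩
    · rw [map_mul, h1, aeval_X, dual_mul, map_mul, aeval_X]
    · intro Z hZ
      rw [derivative_mul, derivative_X, mul_one, map_add, map_mul, aeval_X, add_mul, add_mul,
        Matrix.trace_add, add_mul, Matrix.trace_add, mul_assoc c B Z,
        h2 (B * Z) ((Commute.refl B).mul_right hZ), add_comm]
      congr 1
      have h4 : aeval B (derivative P) * B = B * aeval B (derivative P) := by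
        have h5 := congrArg (aeval B) (mul_comm (derivative P) X)
        rw [map_mul, map_mul, aeval_X] at h5
        exact h5
      rw [h4, hZ.eq, mul_assoc B, mul_assoc B, Matrix.trace_mul_comm B, mul_assoc, mul_assoc,
        mul_assoc]

lemma trace_aeval_dual (B C : Matrix (Fin n) (Fin n) F) (p : F[X]) :
    (aeval (dual B C) p).trace = TrivSqZeroExt.inl (aeval B p).trace +
      TrivSqZeroExt.inr (aeval B (derivative p) * C).trace := by
  obtain ⟨c, h1, h2⟩ := aeval_dual B C p
  have h3 := h2 1 (Commute.one_right B)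
  rw [mul_one, mul_one] at h3
  rw [h1, trace_dual, h3]

lemma mul_eq_zero_of_fst {x y : DualNumber F} (hx : TrivSqZeroExt.fst x = 0)
    (hy : TrivSqZeroExt.fst y = 0) : x * y = 0 := by
  ext
  · rw [TrivSqZeroExt.fst_mul, hx, zero_mul, TrivSqZeroExt.fst_zero]
  · rw [TrivSqZeroExt.snd_mul, hx, hy]
    simp

lemma fst_det {k : ℕ} (S : Matrix (Fin k) (Fin k) (DualNumber F)) :
    TrivSqZeroExt.fst S.det = (Matrix.of fun i j => TrivSqZeroExt.fst (S i j)).det := by
  have h := RingHom.map_det (TrivSqZeroExt.fstHom F F F).toRingHom S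
  exact h

/-- The determinant of a matrix over the dual numbers whose last row and last column are divisible
by `ε`. -/
lemma det_last {r : ℕ} (M : Matrix (Fin (r + 1)) (Fin (r + 1)) (DualNumber F))
    (hr : ∀ j, TrivSqZeroExt.fst (M (Fin.last r) j) = 0)
    (hc : ∀ i, TrivSqZeroExt.fst (M i (Fin.last r)) = 0) :
    M.det = M (Fin.last r) (Fin.last r) *
      (M.submatrix Fin.castSucc Fin.castSucc).det := by
  rw [Matrix.det_succ_row M (Fin.last r), Finset.sum_eq_single (Fin.last r)]
  · rw [Fin.succAbove_last, ← two_mul, pow_mul, neg_one_sq, one_pow, one_mul]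
  · intro j _ hj
    rw [mul_assoc]
    have h0 : M (Fin.last r) j *
        (M.submatrix (Fin.last r).succAbove j.succAbove).det = 0 := by
      apply mul_eq_zero_of_fst (hr j)
      rw [fst_det]
      obtain ⟨j', hj'⟩ := Fin.exists_succAbove_eq (Ne.symm hj)
      refine Matrix.det_eq_zero_of_column_eq_zero j' fun i => ?_
      rw [Matrix.of_apply, Matrix.submatrix_apply, hj']
      exact hc _
    rw [h0, mul_zero]
  · intro h
    exact absurd (Finset.mem_univ _) h

/-- The key identity. -/
lemma star [CharZero F] {r : ℕ} {A X' : Matrix (Fin n) (Fin n) F} (hA : numEig A = r)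
    (h : ∀ f g : Fin (r + 1) → F[X],
      (Matrix.of fun i j => (aeval (dual A (A * X')) (f i * g j)).trace).det = 0)
    {f g : F[X]} (hf : IsNilpotent (aeval A f)) (hg : IsNilpotent (aeval A g)) :
    (aeval A (derivative (f * g)) * (A * X')).trace = 0 := by
  have comm : ∀ p q : F[X], Commute (aeval A p) (aeval A q) := fun p q => by
    rw [Commute, SemiconjBy, ← map_mul, ← map_mul, mul_comm]
  have tr0 : ∀ p q : F[X], IsNilpotent (aeval A q) → (aeval A (p * q)).trace = 0 := by
    intro p q hq
    have h1 : IsNilpotent (aeval A (p * q)) := by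
      rw [map_mul]
      exact (comm p q).isNilpotent_mul_left hq
    exact (Matrix.isNilpotent_trace_of_isNilpotent h1).eq_zero
  let ff : Fin (r + 1) → F[X] := Fin.snoc (fun i : Fin r => X ^ (i : ℕ)) f
  let gg : Fin (r + 1) → F[X] := Fin.snoc (fun i : Fin r => X ^ (i : ℕ)) g
  have hff : ff (Fin.last r) = f := Fin.snoc_last _ _
  have hgg : gg (Fin.last r) = g := Fin.snoc_last _ _
  have hff' : ∀ i : Fin r, ff i.castSucc = X ^ (i : ℕ) := fun i => Fin.snoc_castSucc _ _ _
  have hgg' : ∀ i : Fin r, gg i.castSucc = X ^ (i : ℕ) := fun i => Fin.snoc_castSucc _ _ _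
  have h1 := h ff gg
  rw [det_last] at h1
  · have h2 := congrArg TrivSqZeroExt.snd h1
    rw [TrivSqZeroExt.snd_mul, TrivSqZeroExt.snd_zero, Matrix.of_apply, trace_aeval_dual, hff,
      hgg, tr0 f g hg, TrivSqZeroExt.inl_zero, zero_add, TrivSqZeroExt.fst_inr, zero_smul,
      zero_add, TrivSqZeroExt.snd_inr, fst_det, op_smul_eq_mul] at h2
    have h3 : (Matrix.of fun i j => TrivSqZeroExt.fst (((Matrix.of fun i j =>
        (aeval (dual A (A * X')) (ff i * gg j)).trace).submatrix Fin.castSucc Fin.castSucc) i j)) =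
        Matrix.of fun i j : Fin r => (A ^ ((i : ℕ) + j)).trace := by
      ext i j
      rw [Matrix.of_apply, Matrix.submatrix_apply, Matrix.of_apply, Matrix.of_apply, hff', hgg',
        trace_aeval_dual, ← pow_add, map_pow, aeval_X]
      simp
    rw [h3] at h2
    rcases mul_eq_zero.1 h2 with h4 | h4
    · exact h4
    · exact absurd h4 (hank_ne_zero hA)
  · intro j
    rw [Matrix.of_apply, trace_aeval_dual, hff, mul_comm, tr0 _ f hf]
    simp
  · intro i
    rw [Matrix.of_apply, trace_aeval_dual, hgg, tr0 _ g hg]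
    simp

end VarP

open VarP

theorem t_var : S_var := by
  intro F _ _ n r A X' hA hr h M hM hnil
  have comm : ∀ p q : F[X], Commute (aeval A p) (aeval A q) := fun p q => by
    rw [Commute, SemiconjBy, ← map_mul, ← map_mul, mul_comm]
  have hμ : minpoly F A ≠ 0 := minpoly.ne_zero (isIntegral_mat A)
  obtain ⟨q, k, hsq, hqμ, hμq⟩ := exists_squarefree_dvd_pow_of_ne_zero hμ
  have hqk : (aeval A q) ^ k = 0 := by
    rw [← map_pow]
    obtain ⟨t, ht⟩ := hμq
    rw [ht, map_mul, minpoly.aeval, zero_mul]
  have hqn : IsNilpotent (aeval A q) := ⟨k, hqk⟩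
  -- `q` divides every polynomial whose value is nilpotent
  have hdvd : ∀ w : F[X], IsNilpotent (aeval A w) → q ∣ w := by
    intro w hw
    obtain ⟨l, hl⟩ := hw
    rw [← map_pow] at hl
    have h1 : q ∣ w ^ l := hqμ.trans (minpoly.dvd F A hl)
    exact hsq.isRadical l w h1
  -- coprimality
  have hcop : IsCoprime q (derivative q * X) := by
    refine IsCoprime.mul_right ?_ ?_
    · exact PerfectField.separable_iff_squarefree.2 hsq
    · rw [isCoprime_comm, (irreducible_X).coprime_iff_not_dvd]
      intro hX
      obtain ⟨ν, hν⟩ := hX.trans hqμ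
      have h1 : aeval A ν = 0 := by
        have h2 := minpoly.aeval F A
        rw [hν, map_mul, aeval_X] at h2
        have h3 := congrArg (fun B => A⁻¹ * B) h2
        simp only [← mul_assoc, Matrix.nonsing_inv_mul A hA, one_mul, mul_zero] at h3
        exact h3
      obtain ⟨t, ht⟩ := minpoly.dvd F A h1
      have hν0 : ν ≠ 0 := by
        rintro rfl
        exact hμ (by rw [hν, mul_zero])
      rw [hν] at ht
      have h4 : ν * (X * t) = ν * 1 := by
        rw [mul_one]
        conv_rhs => rw [ht]
        ring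
      have h5 := mul_left_cancel₀ hν0 h4
      exact not_isUnit_X (IsUnit.of_mul_eq_one _ h5)
  have hclaim : ∀ d j : ℕ, 1 ≤ j → k ≤ j + d → ∀ s : F[X],
      (aeval A (q ^ j * s) * X').trace = 0 := by
    intro d
    induction d with
    | zero =>
      intro j _ hj s
      rw [map_mul, map_pow, pow_eq_zero_of_le (by omega : k ≤ j) hqk, zero_mul, zero_mul, Matrix.trace_zero]
    | succ d ih =>
      intro j hj hd s
      have hC : ∀ s : F[X], (aeval A (q ^ (j + 1) * s) * X').trace = 0 :=
        ih (j + 1) (by omega) (by omega)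
      have hS : ∀ t : F[X], (aeval A (q ^ j * (derivative q * X * t)) * X').trace = 0 := by
        intro t
        have h1 : IsNilpotent (aeval A (q ^ j)) := by
          rw [map_pow]
          exact hqn.pow_of_pos (by omega)
        have h2 : IsNilpotent (aeval A (q * t)) := by
          rw [map_mul]
          exact (comm q t).isNilpotent_mul_right hqn
        have h3 := star hr h h1 h2
        have h4 : derivative (q ^ j * (q * t)) * X =
            (((j + 1 : ℕ) : F)) • (q ^ j * (derivative q * X * t)) +
              q ^ (j + 1) * (derivative t * X) := by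
          rw [← mul_assoc, ← pow_succ, derivative_mul, derivative_pow, smul_eq_C_mul]
          simp only [Nat.add_sub_cancel, map_natCast]
          ring
        have h5 : aeval A (derivative (q ^ j * (q * t))) * (A * X') =
            aeval A (derivative (q ^ j * (q * t)) * X) * X' := by
          generalize derivative (q ^ j * (q * t)) = P
          rw [map_mul, aeval_X, mul_assoc]
        rw [h5, h4, map_add, map_smul, add_mul, Matrix.trace_add, hC, add_zero, smul_mul_assoc,
          Matrix.trace_smul, smul_eq_mul] at h3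
        rcases mul_eq_zero.1 h3 with h6 | h6
        · exact absurd h6 (Nat.cast_ne_zero.2 (by omega))
        · exact h6
      obtain ⟨a, b, hab⟩ := hcop
      have h6 : q ^ j * s = q ^ (j + 1) * (a * s) + q ^ j * (derivative q * X * (b * s)) := by
        calc q ^ j * s = q ^ j * s * (a * q + b * (derivative q * X)) := by rw [hab, mul_one]
          _ = _ := by ring
      rw [h6, map_add, add_mul, Matrix.trace_add, hC, hS, add_zero]
  rw [Algebra.adjoin_singleton_eq_range_aeval] at hM
  obtain ⟨m, rfl⟩ := hM
  obtain ⟨w, hw⟩ := hdvd m hnil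
  have h7 := hclaim k 1 le_rfl (by omega) w
  rw [pow_one, ← hw] at h7
  exact h7

end Pool.Agent.NH36.Sd
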