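import Pool.Agent.NH36.Sd.Defs

/-!
# The tangent vector of the Zariski closure of the powers of a matrix (SD-2)
-/

set_option autoImplicit false

open Matrix Polynomial Pool.Agent.NH36.Fs

namespace Pool.Agent.NH36.Sd

namespace ZarAux

/-! ## Evaluation of a polynomial at `X B Y` -/

variable {F : Type} [Field F] {n : ℕ}

/-- The value of `P` at the matrix `X B Y`. -/
noncomputable def ev {R : Type} [CommRing R] (f : F →+* R) (X : Matrix (Fin n) (Fin n) F)
    (B : Matrix (Fin n) (Fin n) R) (Y : Matrix (Fin n) (Fin n) F)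
    (P : MvPolynomial (Fin n × Fin n) F) : R :=
  MvPolynomial.eval₂ f (fun p => (f.mapMatrix X * B * f.mapMatrix Y) p.1 p.2) P

lemma map_ev {R R' : Type} [CommRing R] [CommRing R'] (g : R →+* R') (f : F →+* R)
    (X : Matrix (Fin n) (Fin n) F) (B : Matrix (Fin n) (Fin n) R) (Y : Matrix (Fin n) (Fin n) F)
    (P : MvPolynomial (Fin n × Fin n) F) :
    g (ev f X B Y P) = ev (g.comp f) X (g.mapMatrix B) Y P := by
  unfold ev
  rw [MvPolynomial.eval₂_comp_left]
  congr 1
  funext p
  have h : g.mapMatrix (f.mapMatrix X * B * f.mapMatrix Y) =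
      (g.comp f).mapMatrix X * g.mapMatrix B * (g.comp f).mapMatrix Y := by
    rw [map_mul, map_mul]
    rfl
  exact congrFun (congrFun h p.1) p.2

lemma van_iff (X B Y : Matrix (Fin n) (Fin n) F) (P : MvPolynomial (Fin n × Fin n) F) :
    Van P (X * B * Y) ↔ ev (RingHom.id F) X B Y P = 0 := by
  unfold Van ev
  rw [MvPolynomial.eval₂_id]
  rfl

/-! ## Dual numbers -/

/-- The homomorphism from the polynomials to the dual numbers. -/
noncomputable def psi (F : Type) [Field F] : F[X] →+* DualNumber F :=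
  eval₂RingHom (algebraMap F (DualNumber F)) DualNumber.eps

lemma alg_apply (a : F) : algebraMap F (DualNumber F) a = TrivSqZeroExt.inl a := rfl

lemma psi_C (a : F) : psi F (C a) = algebraMap F (DualNumber F) a := by
  simp [psi]

lemma psi_apply (p : F[X]) :
    psi F p = TrivSqZeroExt.inl (p.coeff 0) + TrivSqZeroExt.inr (p.coeff 1) := by
  have h1 : p = C (p.coeff 0) + X * (C (p.coeff 1) + X * p.divX.divX) := by
    have h2 := divX_mul_X_add p
    have h3 := divX_mul_X_add p.divX
    have h4 : p.divX.coeff 0 = p.coeff 1 := by rw [coeff_divX]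
    rw [h4] at h3
    conv_lhs => rw [← h2, ← h3]
    ring
  have he : (DualNumber.eps : DualNumber F) * DualNumber.eps = 0 := DualNumber.eps_mul_eps
  have hX : psi F X = DualNumber.eps := by simp [psi]
  conv_lhs => rw [h1]
  rw [map_add, map_mul, map_add, map_mul, psi_C, psi_C, hX, mul_add, ← mul_assoc, he, zero_mul,
    add_zero, alg_apply, alg_apply]
  ext
  · simp
  · simp

lemma psi_mapMatrix (U : Matrix (Fin n) (Fin n) F[X]) :
    (psi F).mapMatrix U = dual (Matrix.of fun i j => (U i j).coeff 0)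
      (Matrix.of fun i j => (U i j).coeff 1) := by
  ext1 i j
  exact psi_apply (U i j)

lemma dual_mul (X N Y : Matrix (Fin n) (Fin n) F) :
    (algebraMap F (DualNumber F)).mapMatrix X * dual 1 N * (algebraMap F (DualNumber F)).mapMatrix Y
      = dual (X * Y) (X * N * Y) := by
  have h : ∀ B C : Matrix (Fin n) (Fin n) F, dual B C =
      (algebraMap F (DualNumber F)).mapMatrix B + (DualNumber.eps : DualNumber F) •
        (algebraMap F (DualNumber F)).mapMatrix C := by
    intro B C
    ext1 i j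
    show TrivSqZeroExt.inl (B i j) + TrivSqZeroExt.inr (C i j) =
      algebraMap F (DualNumber F) (B i j) + DualNumber.eps * algebraMap F (DualNumber F) (C i j)
    rw [alg_apply, alg_apply]
    ext
    · simp
    · simp
  rw [h, h, mul_add, add_mul, map_one, mul_one, map_mul, map_mul, map_mul, Matrix.mul_smul,
    Matrix.smul_mul]

/-! ## Binomial polynomials -/

/-- The polynomial whose value at `k` is the binomial coefficient. -/
noncomputable def bp (F : Type) [Field F] (j : ℕ) : F[X] :=
  C ((j.factorial : F)⁻¹) * descPochhammer F j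

lemma bp_eval [CharZero F] (j k : ℕ) : (bp F j).eval (k : F) = (k.choose j : F) := by
  unfold bp
  rw [eval_mul, eval_C, descPochhammer_eval_eq_descFactorial, Nat.descFactorial_eq_factorial_mul_choose]
  have h : (j.factorial : F) ≠ 0 := by exact_mod_cast j.factorial_ne_zero
  push_cast
  field_simp

lemma bp_zero : bp F 0 = 1 := by simp [bp]

lemma bp_one : bp F 1 = X := by simp [bp]

lemma bp_coeff_zero [CharZero F] (j : ℕ) : (bp F j).coeff 0 = if j = 0 then 1 else 0 := by
  rw [coeff_zero_eq_eval_zero]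
  have h := bp_eval (F := F) j 0
  rw [Nat.cast_zero] at h
  rw [h]
  split_ifs with hj
  · subst hj; simp
  · obtain ⟨i, rfl⟩ := Nat.exists_eq_succ_of_ne_zero hj
    simp

lemma one_add_pow {A : Type} [Ring A] (M : A) (J : ℕ) (hJ : M ^ J = 0) (k : ℕ) :
    (1 + M) ^ k = ∑ j ∈ Finset.range J, (k.choose j : A) * M ^ j := by
  rw [add_comm, (Commute.one_right M).add_pow]
  have h1 : ∑ m ∈ Finset.range (k + 1), M ^ m * 1 ^ (k - m) * (k.choose m : A) =
      ∑ m ∈ Finset.range (k + 1 + J), (k.choose m : A) * M ^ m := by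
    have h2 : ∑ m ∈ Finset.range (k + 1), M ^ m * 1 ^ (k - m) * (k.choose m : A) =
      ∑ m ∈ Finset.range (k + 1), (k.choose m : A) * M ^ m := by
      refine Finset.sum_congr rfl fun m _ => ?_
      rw [one_pow, mul_one, (Nat.cast_commute (k.choose m) (M ^ m)).eq]
    rw [h2]
    refine Finset.sum_subset (Finset.range_subset_range.2 (by omega)) fun m _ hm => ?_
    rw [Finset.mem_range, not_lt] at hm
    rw [Nat.choose_eq_zero_of_lt (by omega), Nat.cast_zero, zero_mul]
  rw [h1]
  symm
  refine Finset.sum_subset (Finset.range_subset_range.2 (by omega)) fun m _ hm => ?_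
  rw [Finset.mem_range, not_lt] at hm
  rw [← Nat.sub_add_cancel hm, pow_add, hJ, mul_zero, mul_zero]

/-! ## Exponential polynomials -/

section expo

variable {E : Type} [Field E]

lemma evk_single (k : ℕ) (u : Eˣ) (p : E[X]) :
    evk E k (MonoidAlgebra.single u p) = p.eval (k : E) * (u : E) ^ k := by
  show MonoidAlgebra.liftNC _ _ (MonoidAlgebra.single u p) = _
  rw [MonoidAlgebra.liftNC_single]
  rfl

lemma red_single (u : Eˣ) (p : E[X]) : red E (MonoidAlgebra.single u p) = p := by
  show MonoidAlgebra.liftNC _ _ (MonoidAlgebra.single u p) = _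
  rw [MonoidAlgebra.liftNC_single]
  exact mul_one p

variable [Algebra F E]

/-- The constants in the algebra of exponential polynomials. -/
noncomputable def iota (F E : Type) [Field F] [Field E] [Algebra F E] :
    F →+* MonoidAlgebra E[X] Eˣ :=
  MonoidAlgebra.singleOneRingHom.comp (C.comp (algebraMap F E))

lemma evk_iota (k : ℕ) : (evk E k).comp (iota F E) = algebraMap F E := by
  ext a
  show evk E k (MonoidAlgebra.single 1 (C (algebraMap F E a))) = _
  rw [evk_single]
  simp

lemma red_iota : (red E).comp (iota F E) = (mapRingHom (algebraMap F E)).comp C := by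
  ext1 a
  show red E (MonoidAlgebra.single 1 (C (algebraMap F E a))) = _
  rw [red_single]
  simp

/-- The unit given by a nonzero element. -/
noncomputable def uu [DecidableEq E] (a : E) : Eˣ := if h : a = 0 then 1 else Units.mk0 a h

lemma uu_coe [DecidableEq E] {a : E} (h : a ≠ 0) : ((uu a : Eˣ) : E) = a := by
  simp [uu, h]

/-- The matrix of exponential polynomials whose values are the powers of a matrix. -/
noncomputable def AA [DecidableEq E] (La : Finset E) (q : E → Matrix (Fin n) (Fin n) E)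
    (M : Matrix (Fin n) (Fin n) F) (J : ℕ) : Matrix (Fin n) (Fin n) (MonoidAlgebra E[X] Eˣ) :=
  Matrix.of fun i l => ∑ a ∈ La, ∑ j ∈ Finset.range J, MonoidAlgebra.single (uu a)
    ((bp F j).map (algebraMap F E) * C ((q a * (algebraMap F E).mapMatrix M ^ j) i l))

/-- The polynomial matrix whose values are the powers of a unipotent matrix. -/
noncomputable def UU (M : Matrix (Fin n) (Fin n) F) (J : ℕ) : Matrix (Fin n) (Fin n) F[X] :=
  Matrix.of fun i l => ∑ j ∈ Finset.range J, bp F j * C ((M ^ j) i l)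

lemma evk_AA [DecidableEq E] [CharZero F] {La : Finset E} {q : E → Matrix (Fin n) (Fin n) E}
    {S M : Matrix (Fin n) (Fin n) F} {J : ℕ} (hJ : M ^ J = 0) (hLa : ∀ a ∈ La, a ≠ 0)
    (h1 : ∑ a ∈ La, q a = 1)
    (h2 : ∀ a ∈ La, (algebraMap F E).mapMatrix S * q a = a • q a) (k : ℕ) :
    (evk E k).mapMatrix (AA La q M J) =
      (algebraMap F E).mapMatrix (S ^ k * (1 + M) ^ k) := by
  have h3 : ∀ a ∈ La, (algebraMap F E).mapMatrix S ^ k * q a = a ^ k • q a := by
    intro a ha
    induction k with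
    | zero => simp
    | succ k ih => rw [pow_succ, mul_assoc, h2 a ha, Matrix.mul_smul, ih, smul_smul, pow_succ',
        mul_comm]
  have h4 : (algebraMap F E).mapMatrix S ^ k = ∑ a ∈ La, a ^ k • q a := by
    rw [← Finset.sum_congr rfl h3, ← Finset.mul_sum, h1, mul_one]
  rw [one_add_pow M J hJ k, map_mul, map_pow, h4, map_sum, Finset.sum_mul]
  ext1 i l
  show evk E k (∑ a ∈ La, ∑ j ∈ Finset.range J, MonoidAlgebra.single (uu a)
    ((bp F j).map (algebraMap F E) * C ((q a * (algebraMap F E).mapMatrix M ^ j) i l))) = _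
  rw [map_sum, Matrix.sum_apply]
  refine Finset.sum_congr rfl fun a ha => ?_
  rw [map_sum, Finset.mul_sum, Matrix.sum_apply]
  refine Finset.sum_congr rfl fun j _ => ?_
  rw [evk_single, uu_coe (hLa a ha), eval_mul, eval_C, map_mul, map_pow, map_natCast,
    Polynomial.eval_natCast_map, bp_eval, map_natCast, Matrix.smul_mul]
  have h5 : q a * ((k.choose j : Matrix (Fin n) (Fin n) E) * (algebraMap F E).mapMatrix M ^ j) =
      (k.choose j : E) • (q a * (algebraMap F E).mapMatrix M ^ j) := by
    rw [← mul_assoc, ← (Nat.cast_commute (k.choose j) (q a)).eq, mul_assoc, ← nsmul_eq_mul,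
      Nat.cast_smul_eq_nsmul]
  rw [h5, Matrix.smul_apply, Matrix.smul_apply, smul_eq_mul, smul_eq_mul]
  ring

lemma red_AA [DecidableEq E] {La : Finset E} {q : E → Matrix (Fin n) (Fin n) E}
    {M : Matrix (Fin n) (Fin n) F} {J : ℕ} (h1 : ∑ a ∈ La, q a = 1) :
    (red E).mapMatrix (AA La q M J) = (mapRingHom (algebraMap F E)).mapMatrix (UU M J) := by
  ext1 i l
  show red E (∑ a ∈ La, ∑ j ∈ Finset.range J, MonoidAlgebra.single (uu a)
    ((bp F j).map (algebraMap F E) * C ((q a * (algebraMap F E).mapMatrix M ^ j) i l))) =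
    mapRingHom (algebraMap F E) (∑ j ∈ Finset.range J, bp F j * C ((M ^ j) i l))
  rw [Finset.sum_comm, map_sum, map_sum]
  refine Finset.sum_congr rfl fun j _ => ?_
  rw [map_sum, map_mul]
  simp only [red_single]
  rw [← Finset.mul_sum, ← map_sum, ← Matrix.sum_apply, ← Finset.sum_mul, h1, one_mul, ← map_pow]
  simp

lemma core_step (h : S_exp) [CharZero F] [CharZero E] {La : Finset E}
    {q : E → Matrix (Fin n) (Fin n) E}
    {S M : Matrix (Fin n) (Fin n) F} {J : ℕ} (hJ : M ^ J = 0) (hLa : ∀ a ∈ La, a ≠ 0)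
    (h1 : ∑ a ∈ La, q a = 1)
    (h2 : ∀ a ∈ La, (algebraMap F E).mapMatrix S * q a = a • q a)
    (X Y : Matrix (Fin n) (Fin n) F) (m : ℕ) (hm : 0 < m) (P : MvPolynomial (Fin n × Fin n) F)
    (hP : ∀ k : ℕ, m ∣ k → Van P (X * (S ^ k * (1 + M) ^ k) * Y)) :
    ev C X (UU M J) Y P = 0 := by
  classical
  have h3 : red E (ev (iota F E) X (AA La q M J) Y P) = 0 := by
    refine h E m hm _ fun k hk => ?_
    rw [map_ev, evk_iota, evk_AA hJ hLa h1 h2]
    have h4 := (van_iff _ _ _ _).1 (hP k hk)
    have h5 := congrArg (algebraMap F E) h4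
    rw [map_ev, map_zero] at h5
    exact h5
  rw [map_ev, red_iota, red_AA h1, ← map_ev] at h3
  exact (Polynomial.map_injective _ (algebraMap F E).injective) 
    (h3.trans (Polynomial.map_zero _).symm)

end expo

lemma UU_dual [CharZero F] (M : Matrix (Fin n) (Fin n) F) (J : ℕ) (hJ : 0 < J) :
    (psi F).mapMatrix (UU M J) = dual 1 (∑ j ∈ Finset.range J, (bp F j).coeff 1 • M ^ j) := by
  rw [psi_mapMatrix]
  congr 1
  · ext1 i l
    show (∑ j ∈ Finset.range J, bp F j * C ((M ^ j) i l)).coeff 0 = _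
    rw [Polynomial.finsetSum_coeff, Finset.sum_eq_single_of_mem 0 (Finset.mem_range.2 hJ)]
    · rw [bp_zero, one_mul, coeff_C_zero, pow_zero]
    · intro j _ hj
      rw [coeff_mul_C, bp_coeff_zero, if_neg hj, zero_mul]
  · ext1 i l
    show (∑ j ∈ Finset.range J, bp F j * C ((M ^ j) i l)).coeff 1 = _
    rw [Polynomial.finsetSum_coeff, Matrix.sum_apply]
    refine Finset.sum_congr rfl fun j _ => ?_
    rw [coeff_mul_C, Matrix.smul_apply, smul_eq_mul]

lemma core_dual [CharZero F] {M : Matrix (Fin n) (Fin n) F} {J : ℕ} (hJ : 0 < J)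
    (X Y : Matrix (Fin n) (Fin n) F) (P : MvPolynomial (Fin n × Fin n) F)
    (h : ev C X (UU M J) Y P = 0) :
    VanD P (X * Y) (X * (∑ j ∈ Finset.range J, (bp F j).coeff 1 • M ^ j) * Y) := by
  have h1 := congrArg (psi F) h
  rw [map_ev, map_zero, UU_dual _ _ hJ] at h1
  have h2 : (psi F).comp C = algebraMap F (DualNumber F) := by
    ext1 a
    exact psi_C a
  rw [h2] at h1
  unfold ev at h1
  rw [dual_mul] at h1
  exact h1

/-! ## Diagonalisation -/

lemma prod_id_eq {E : Type} [Field E] [DecidableEq E] {f : E[X]} (hf : f.Splits) (hm : f.Monic)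
    (hs : f.Separable) : f = ∏ a ∈ f.roots.toFinset, (X - C a) := by
  have h1 := hf.eq_prod_roots_of_monic hm
  have h2 : f.roots.Nodup := nodup_roots hs
  rw [Finset.prod, Multiset.toFinset_val, Multiset.dedup_eq_self.2 h2]
  exact h1

lemma basis_mul {E : Type} [Field E] [DecidableEq E] {La : Finset E} {a : E} (ha : a ∈ La) :
    ∃ c : E[X], (X - C a) * Lagrange.basis La id a = c * ∏ b ∈ La, (X - C b) := by
  refine ⟨∏ b ∈ La.erase a, C ((a - b)⁻¹), ?_⟩
  unfold Lagrange.basis Lagrange.basisDivisor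
  rw [Finset.prod_mul_distrib, ← Finset.mul_prod_erase La _ ha]
  simp only [id]
  ring

lemma zero_of_root {S : Matrix (Fin n) (Fin n) F} {E : Type} [Field E] [Algebra F E]
    (h : ((minpoly F S).map (algebraMap F E)).eval 0 = 0) : S.det = 0 := by
  rw [← map_zero (algebraMap F E), eval_map_algebraMap, aeval_algebraMap_apply] at h
  have h' := (algebraMap F E).injective h
  rw [coe_aeval_eq_eval] at h'
  have h1 : (S.charpoly).eval 0 = 0 :=
    Polynomial.eval_eq_zero_of_dvd_of_eval_eq_zero (Matrix.minpoly_dvd_charpoly S) h'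
  rw [Matrix.det_eq_sign_charpoly_coeff, coeff_zero_eq_eval_zero, h1, mul_zero]

lemma diag_exists [CharZero F] {S : Matrix (Fin n) (Fin n) F} (hS : SS S) (hu : IsUnit S.det) :
    ∃ (La : Finset (AlgebraicClosure F))
      (q : AlgebraicClosure F → Matrix (Fin n) (Fin n) (AlgebraicClosure F)),
      (∀ a ∈ La, a ≠ 0) ∧ ∑ a ∈ La, q a = 1 ∧
      ∀ a ∈ La, (algebraMap F (AlgebraicClosure F)).mapMatrix S * q a = a • q a := by
  classical
  set E := AlgebraicClosure F with hE
  set f : E[X] := (minpoly F S).map (algebraMap F E) with hf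
  have hm : f.Monic := (minpoly.monic (isIntegral_mat S)).map _
  have hsep : f.Separable := by
    have h1 := (ss_iff S).1 hS
    rw [← PerfectField.separable_iff_squarefree] at h1
    exact h1.map
  have hprod := prod_id_eq (IsAlgClosed.splits f) hm hsep
  have hz : aeval ((algebraMap F E).mapMatrix S) f = 0 := by
    rw [hf, aeval_map_algebraMap]
    have h5 : (algebraMap F E).mapMatrix S = (Algebra.ofId F E).mapMatrix S := rfl
    rw [h5, aeval_algHom_apply, minpoly.aeval, map_zero]
  refine ⟨f.roots.toFinset, fun a => aeval ((algebraMap F E).mapMatrix S)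
    (Lagrange.basis f.roots.toFinset id a), ?_, ?_, ?_⟩
  · intro a ha h0
    subst h0
    rw [Multiset.mem_toFinset, mem_roots hm.ne_zero] at ha
    exact hu.ne_zero (zero_of_root ha)
  · rcases f.roots.toFinset.eq_empty_or_nonempty with h0 | h0
    · rw [h0] at hprod ⊢
      rw [Finset.prod_empty] at hprod
      rw [Finset.sum_empty]
      rw [hprod, map_one] at hz
      exact hz.symm
    · rw [← map_sum, Lagrange.sum_basis (Set.injOn_id _) h0, map_one]
  · intro a ha
    obtain ⟨c, hc⟩ := basis_mul ha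
    rw [← hprod] at hc
    have h1 := congrArg (aeval ((algebraMap F E).mapMatrix S)) hc
    rw [map_mul, map_mul, hz, mul_zero, map_sub, aeval_X, aeval_C, sub_mul, sub_eq_zero,
      ← Algebra.smul_def] at h1
    exact h1

lemma comm_aeval (A : Matrix (Fin n) (Fin n) F) (p q : F[X]) :
    Commute (aeval A p) (aeval A q) := by
  unfold Commute SemiconjBy
  rw [← map_mul, ← map_mul, mul_comm]

lemma inv_poly {S : Matrix (Fin n) (Fin n) F} (hu : IsUnit S.det) : ∃ t : F[X],
    aeval S t * S = 1 := by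
  have h0 : S.charpoly.coeff 0 ≠ 0 := by
    intro h
    rw [Matrix.det_eq_sign_charpoly_coeff, h, mul_zero] at hu
    exact hu.ne_zero rfl
  refine ⟨C (-(S.charpoly.coeff 0)⁻¹) * S.charpoly.divX, ?_⟩
  have h1 := congrArg (aeval S) (divX_mul_X_add S.charpoly)
  rw [Matrix.aeval_self_charpoly, map_add, map_mul, aeval_X, aeval_C] at h1
  rw [map_mul, aeval_C, mul_assoc, eq_neg_of_add_eq_zero_left h1, map_neg, neg_mul_neg, ← map_mul,
    inv_mul_cancel₀ h0, map_one]

lemma jc [CharZero F] (A : Matrix (Fin n) (Fin n) F) : ∃ pn ps : F[X],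
    IsNilpotent (aeval A pn) ∧ SS (aeval A ps) ∧ A = aeval A pn + aeval A ps := by
  obtain ⟨N, hN, S, hS, h1, h2, h3⟩ :=
    Module.End.exists_isNilpotent_isSemisimple (K := F) (f := Matrix.toLin' A)
  rw [Algebra.adjoin_singleton_eq_range_aeval] at hN hS
  obtain ⟨pn, hpn⟩ := hN
  obtain ⟨ps, hps⟩ := hS
  have h4 : ∀ p : F[X], aeval (Matrix.toLin' A) p = Matrix.toLinAlgEquiv' (aeval A p) := by
    intro p
    exact aeval_algHom_apply (Matrix.toLinAlgEquiv' (R := F) (n := Fin n)).toAlgHom A p
  have hpn' : N = Matrix.toLinAlgEquiv' (aeval A pn) := by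
    rw [← h4]; exact hpn.symm
  have hps' : S = Matrix.toLinAlgEquiv' (aeval A ps) := by
    rw [← h4]; exact hps.symm
  refine ⟨pn, ps, ?_, ?_, ?_⟩
  · rw [hpn'] at h1
    exact (IsNilpotent.map_iff (Matrix.toLinAlgEquiv' (R := F) (n := Fin n)).injective).1 h1
  · rw [hps'] at h2
    exact h2
  · rw [hpn', hps', ← map_add] at h3
    exact (Matrix.toLinAlgEquiv' (R := F) (n := Fin n)).injective h3

end ZarAux

open ZarAux in
/-- SD-2. -/
theorem t_zar (h : S_exp) : S_zar := by
  intro F _ _ n A hA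
  obtain ⟨pn, ps, hnil, hss, hsum⟩ := jc A
  set N0 := aeval A pn with hN0
  set S := aeval A ps with hS
  have hSu : IsUnit S.det := by
    rw [← Matrix.isUnit_iff_isUnit_det] at hA ⊢
    have h1 : S = A + -N0 := by
      rw [← sub_eq_add_neg]
      exact eq_sub_of_add_eq' hsum.symm
    rw [h1]
    refine IsNilpotent.isUnit_add_left_of_commute hnil.neg hA ?_
    have h2 : Commute N0 A := by
      have := comm_aeval A pn X
      rwa [aeval_X] at this
    exact h2.neg_left
  obtain ⟨t, ht⟩ := inv_poly hSu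
  have ht' : aeval S t = aeval A (t.comp ps) := by rw [aeval_comp]
  set M := aeval A (t.comp ps * pn) with hM
  have hMT : M = aeval S t * N0 := by rw [hM, map_mul, ht']
  have hSM : S * M = N0 := by
    rw [hMT, ← mul_assoc]
    have h1 : S * aeval S t = 1 := mul_eq_one_comm.1 ht
    rw [h1, one_mul]
  have hfac : A = S * (1 + M) := by
    rw [mul_add, mul_one, hSM, add_comm]
    exact hsum
  have hpow : ∀ k, A ^ k = S ^ k * (1 + M) ^ k := by
    intro k
    have h1 : Commute S (1 + M) := (Commute.one_right S).add_right (comm_aeval A _ _)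
    rw [← h1.mul_pow, ← hfac]
  have hMnil : IsNilpotent M := by
    rw [hM, map_mul]
    exact (comm_aeval A _ _).isNilpotent_mul_left hnil
  obtain ⟨J0, hJ0⟩ := hMnil
  have hJ : M ^ (J0 + 2) = 0 := by rw [pow_add, hJ0, zero_mul]
  obtain ⟨La, q, hLa, hq1, hq2⟩ := diag_exists hss hSu
  set W := ∑ j ∈ Finset.range J0, (bp F (j + 2)).coeff 1 • M ^ j with hW
  have hN : ∑ j ∈ Finset.range (J0 + 2), (bp F j).coeff 1 • M ^ j = M * (1 + M * W) := by
    rw [Finset.sum_range_succ', Finset.sum_range_succ', bp_zero, bp_one, coeff_one, hW,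
      Finset.mul_sum, mul_add, Finset.mul_sum, coeff_X_one]
    simp only [pow_succ, pow_zero, one_mul, mul_one, one_smul]
    rw [if_neg (by norm_num), zero_smul, add_zero, add_comm]
    congr 1
    refine Finset.sum_congr rfl fun j _ => ?_
    rw [Matrix.mul_smul, Matrix.mul_smul, ← mul_assoc, (Commute.pow_self M j).eq, mul_assoc,
      (Commute.pow_self M j).eq, ← mul_assoc]
  have hWM : Commute M W := by
    rw [hW]
    exact Commute.sum_right _ _ _ fun j _ => ((Commute.refl M).pow_right j).smul_right _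
  have hMW : IsNilpotent (M * W) := hWM.isNilpotent_mul_right ⟨J0, hJ0⟩
  refine ⟨∑ j ∈ Finset.range (J0 + 2), (bp F j).coeff 1 • M ^ j, ?_, ?_, ?_, ?_⟩
  · refine Subalgebra.sum_mem _ fun j _ => Subalgebra.smul_mem _ (Subalgebra.pow_mem _ ?_ _) _
    rw [hM]
    exact aeval_mem_adjoin_singleton F A
  · rw [hN]
    exact ((Commute.one_right M).add_right ((Commute.refl M).mul_right hWM)).isNilpotent_mul_right
      ⟨J0, hJ0⟩
  · intro h0
    rw [hN] at h0
    have h1 : M = 0 := (hMW.isUnit_one_add.mul_left_eq_zero).1 h0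
    rw [h1, mul_zero] at hSM
    rw [← hSM, zero_add] at hsum
    rw [hsum]
    exact hss
  · intro X Y m hm P hP
    refine core_dual (by omega) X Y P ?_
    refine core_step h hJ hLa hq1 hq2 X Y m hm P fun k hk => ?_
    rw [← hpow]
    exact hP k hk

end Pool.Agent.NH36.Sd
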